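import Pool.Agent.TH358.GP.Cls
import Pool.Agent.H39R2.Gon.E2

/-!
# Acyclicity for all fields with `EvS` and `SpanDual`

The proofs are those of `Pool/Agent/H39R2/Gon/E2.lean`, with `ev_surj` replaced by `EvS`.
-/

namespace Pool.Agent.Run7.h406.G

open scoped TensorProduct
open Polynomial H39Gon H39Gon.E2

section Main

variable {F : Type} [Field F] (hF : Pool.Agent.TH358.GP.EvS F)
    (hsd : ∀ m, SpanDual F m) (D : Differentials F)

include hF hsd in
theorem step_d (m j : ℕ) (φ : TQ F (m + 3) j →ₗ[ℚ] ℚ)
    (hφ : ∀ (i : ℕ) (hi : j = i + 1) (x : F) (y : Fin i → UV F), x ≠ 0 →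
      φ (tq F (m + 3) j (some x)
        ((Fin.cons (cl x) y : Fin (i + 1) → UV F) ∘ Fin.cast hi)) = 0) :
    ∃ ψ : TQ F (m + 2) (j + 1) →ₗ[ℚ] ℚ, ∀ v, φ v = ψ (D.d m j v) := by
  obtain ⟨Ψ, hΨ, hev⟩ := hF (m + 1) _ (toTheta φ) (fun r hr => toTheta_R φ r hr)
  have hnone : ∀ y, φ (tq F (m + 3) j none y) = 0 := by
    intro y
    rw [← toTheta_apply, hev, ev_none]
    rfl
  have hsome : ∀ x y, φ (tq F (m + 3) j (some x) y) =
      Ψ (cl (1 - x)) (cl x) (fun _ => cl x) y := by
    intro x y
    rw [← toTheta_apply, hev, ev_some]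
  obtain ⟨Q', hQ1, hQ2⟩ := koszul_step m j (qOf Ψ) (by
      intro s
      rw [qOf_apply, hΨ]
      rfl) (by
      intro i hi s v y
      subst hi
      have h1 := hsd (m + 2) (MultilinearMap.uncurryRight
        (M := fun _ : Fin (m + 2 + 1) => UV F)
        ((flipTail y).compMultilinearMap (qOf Ψ))) (by
          intro f hf0 hf1
          change qOf Ψ (fun _ => cl f) (cl (1 - f)) (Fin.cons (cl f) y) = 0
          rw [qOf_apply, ← hsome]
          exact hφ i rfl f y hf0) s v
      exact h1)
  refine ⟨ofTheta (theta' Q') (theta'_R Q' hQ1), fun v => ?_⟩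
  have h2 : φ = (ofTheta (theta' Q') (theta'_R Q' hQ1)) ∘ₗ (D.d m j) := by
    apply text
    intro x y
    rw [LinearMap.comp_apply]
    rcases x with _ | x
    · rw [hnone, D.d_inf, map_zero]
    · by_cases hx : x = 0
      · subst hx
        rw [D.d_zero, map_zero, hsome, cl_zero, map_zero]
        rfl
      · rw [D.d_some m j x y hx, ofTheta_apply, theta'_some, hQ2, qOf_apply, hsome]
  rw [h2]
  rfl

include hF hsd in
theorem step_e (j : ℕ) (φ : TQ F 2 j →ₗ[ℚ] ℚ)
    (hφ : ∀ (i : ℕ) (hi : j = i + 1) (x : F) (y : Fin i → UV F), x ≠ 0 →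
      φ (tq F 2 j (some x)
        ((Fin.cons (cl x) y : Fin (i + 1) → UV F) ∘ Fin.cast hi)) = 0) :
    ∃ ψ : LQ F (j + 2) →ₗ[ℚ] ℚ, ∀ v, φ v = ψ (D.e j v) := by
  obtain ⟨Ψ, hΨ, hev⟩ := hF 0 _ (toTheta φ) (fun r hr => toTheta_R φ r hr)
  have hnone : ∀ y, φ (tq F 2 j none y) = 0 := by
    intro y
    rw [← toTheta_apply, hev, ev_none]
    rfl
  have hsome : ∀ x y, φ (tq F 2 j (some x) y) =
      Ψ (cl (1 - x)) (cl x) (fun _ => cl x) y := by
    intro x y
    rw [← toTheta_apply, hev, ev_some]
  let Q : UV F →ₗ[ℤ] (UV F →ₗ[ℤ] (UV F [⋀^Fin j]→ₗ[ℤ] ℚ)) :=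
    LinearMap.mk₂ ℤ (fun s v => Ψ v s Fin.elim0)
      (fun a b c => by simp) (fun a b c => by simp) (fun a b c => by simp)
      (fun a b c => by simp)
  have hQ : ∀ s v, Q s v = Ψ v s (fun _ => s) := by
    intro s v
    change Ψ v s Fin.elim0 = _
    congr 1
    exact Subsingleton.elim _ _
  obtain ⟨Θ, hΘ⟩ := koszul_last j Q (by
      intro s
      rw [hQ, hΨ]
      rfl) (by
      intro i hi s v y
      subst hi
      have h1 := hsd 1 (MultilinearMap.uncurryRight
        (M := fun _ : Fin (1 + 1) => UV F)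
        ((flipTail y).compMultilinearMap (qOf Ψ))) (by
          intro f hf0 hf1
          change qOf Ψ (fun _ => cl f) (cl (1 - f)) (Fin.cons (cl f) y) = 0
          rw [qOf_apply, ← hsome]
          exact hφ i rfl f y hf0) s v
      have h2 : qOf Ψ (fun _ => s) v (Fin.cons s y) = 0 := h1
      rw [qOf_apply] at h2
      rw [hQ]
      exact h2)
  refine ⟨ofAlt Θ, fun v => ?_⟩
  have h2 : φ = (ofAlt Θ) ∘ₗ (D.e j) := by
    apply text
    intro x y
    rw [LinearMap.comp_apply]
    rcases x with _ | x
    · rw [hnone, D.e_inf, map_zero]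
    · by_cases hx : x = 0
      · subst hx
        rw [D.e_zero, map_zero, hsome, cl_zero, map_zero]
        rfl
      · by_cases hx1 : x = 1
        · subst hx1
          rw [D.e_one, map_zero, hsome, sub_self, cl_zero, map_zero]
          rfl
        · rw [D.e_some j x y hx hx1, ofAlt_apply, hΘ, hQ, hsome]
  rw [h2]
  rfl

end Main

/-- E2: acyclicity. -/
theorem acyclic_evS {F : Type} [Field F] (hF : Pool.Agent.TH358.GP.EvS F)
    (hsd : ∀ m, SpanDual F m) (D : Differentials F) : D.Acyclic := by
  refine ⟨?_, ?_, ?_, ?_, ?_⟩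
  · intro m
    apply injective_of_dual
    intro φ
    exact step_d hF hsd D m 0 φ (fun i hi => by omega)
  · apply injective_of_dual
    intro φ
    exact step_e hF hsd D 0 φ (fun i hi => by omega)
  · intro m j
    apply exact_of_dual
    · have h0 : (D.d m (j + 1)) ∘ₗ (D.d (m + 1) j) = 0 := by
        apply text
        intro x y
        rw [LinearMap.comp_apply, LinearMap.zero_apply]
        rcases x with _ | x
        · rw [D.d_inf, map_zero]
        · by_cases hx : x = 0
          · subst hx
            rw [D.d_zero, map_zero]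
          · rw [D.d_some _ _ _ _ hx, D.d_some _ _ _ _ hx]
            unfold tq
            have h1 : exteriorPower.ιMulti ℤ (j + 1 + 1)
                (Fin.cons (cl x) (Fin.cons (cl x) y : Fin (j + 1) → UV F)) = 0 :=
              AlternatingMap.map_eq_zero_of_eq _ _ (i := 0) (j := 1) (by simp) (by simp)
            rw [h1, TensorProduct.tmul_zero, TensorProduct.tmul_zero]
      intro u
      exact LinearMap.congr_fun h0 u
    · intro φ hφ
      apply step_d hF hsd D m (j + 1) φ
      intro i hi x y hx
      obtain rfl : j = i := by omega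
      have h1 := hφ (tq F (m + 1 + 3) j (some x) y)
      rw [D.d_some _ _ _ _ hx] at h1
      exact h1
  · intro j
    apply exact_of_dual
    · have h0 : (D.e (j + 1)) ∘ₗ (D.d 0 j) = 0 := by
        apply text
        intro x y
        rw [LinearMap.comp_apply, LinearMap.zero_apply]
        rcases x with _ | x
        · rw [D.d_inf, map_zero]
        · by_cases hx : x = 0
          · subst hx
            rw [D.d_zero, map_zero]
          · rw [D.d_some _ _ _ _ hx]
            by_cases hx1 : x = 1
            · subst hx1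
              exact D.e_one _ _
            · rw [D.e_some _ _ _ hx hx1]
              unfold lq
              have h1 : exteriorPower.ιMulti ℤ (j + 1 + 2)
                  (Fin.cons (cl (1 - x)) (Fin.cons (cl x)
                    (Fin.cons (cl x) y : Fin (j + 1) → UV F) :
                      Fin (j + 1 + 1) → UV F)) = 0 :=
                AlternatingMap.map_eq_zero_of_eq _ _ (i := ⟨1, by omega⟩) (j := ⟨2, by omega⟩)
                  (by rfl) (by simp [Fin.ext_iff])
              rw [h1, TensorProduct.tmul_zero]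
      intro u
      exact LinearMap.congr_fun h0 u
    · intro φ hφ
      apply step_e hF hsd D (j + 1) φ
      intro i hi x y hx
      obtain rfl : j = i := by omega
      have h1 := hφ (tq F (0 + 3) j (some x) y)
      rw [D.d_some _ _ _ _ hx] at h1
      exact h1
  · intro j
    apply surjective_of_dual
    intro χ hχ
    apply lext
    intro z
    rw [LinearMap.zero_apply, ← toAlt_apply]
    have h1 : ∀ (y : Fin j → UV F) (s v : UV F),
        toAlt χ (Fin.cons v (Fin.cons s y)) = 0 := by
      intro y s v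
      have h2 := hsd 0 (MultilinearMap.ofSubsingleton ℤ (UV F)
        (UV F →ₗ[ℤ] ℚ) (0 : Fin 1)
        (LinearMap.flip ((evalTail y) ∘ₗ (toAlt χ).curryLeft))) (by
          intro f hf0 hf1
          change toAlt χ (Fin.cons (cl (1 - f)) (Fin.cons (cl f) y)) = 0
          rw [toAlt_apply, ← D.e_some j f y hf0 hf1]
          exact hχ _) s v
      exact h2
    have h3 := h1 (Fin.tail (Fin.tail z)) (Fin.tail z 0) (z 0)
    rwa [Fin.cons_self_tail, Fin.cons_self_tail] at h3

end Pool.Agent.Run7.h406.G
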