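import Pool.Agent.Run7.h406.G.FT3
import Pool.Agent.H39R2.Gon.B

/-!
# Generalities: saturation, the substitution `x ↦ 1/(x-c)`
-/

namespace Pool.Agent.Run7.h406.G

open H39Gon H39Gon.TaskB Polynomial

section sat

variable {V : Type} [AddCommGroup V]

/-- elements killed by all functionals which kill `S` -/
def sat (S : Set V) : Submodule ℤ V where
  carrier := {u | ∀ f : V →ₗ[ℤ] ℝ, (∀ s ∈ S, f s = 0) → f u = 0}
  add_mem' := by
    intro a b ha hb f hf
    rw [map_add, ha f hf, hb f hf, add_zero]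
  zero_mem' := by
    intro f _
    rw [map_zero]
  smul_mem' := by
    intro n a ha f hf
    rw [map_smul, ha f hf, smul_zero]

theorem mem_sat {S : Set V} {u : V} :
    u ∈ sat S ↔ ∀ f : V →ₗ[ℤ] ℝ, (∀ s ∈ S, f s = 0) → f u = 0 := Iff.rfl

theorem subset_sat {S : Set V} {u : V} (hu : u ∈ S) : u ∈ sat S := fun _ hf => hf u hu

theorem mem_sat_of_nsmul {S : Set V} {u : V} (n : ℕ) (hn : 0 < n) (h : n • u ∈ sat S) :
    u ∈ sat S := by
  intro f hf
  have h1 := h f hf
  rw [map_nsmul, nsmul_eq_mul, mul_eq_zero] at h1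
  rcases h1 with h1 | h1
  · exfalso
    have : (n : ℝ) ≠ 0 := by positivity
    exact this h1
  · exact h1

theorem tors_mem_sat {S : Set V} {u : V} (h : Tors u) : u ∈ sat S := by
  obtain ⟨n, hn, h⟩ := h
  apply mem_sat_of_nsmul n hn
  rw [h]
  exact zero_mem _

theorem multi_vanish {n : ℕ} (M : MultilinearMap ℤ (fun _ : Fin n => V) ℝ) (S : Set V)
    (hS : ∀ w : Fin n → V, (∀ i, w i ∈ S) → M w = 0) (w : Fin n → V) (hw : ∀ i, w i ∈ sat S) :
    M w = 0 := by
  classical
  have key : ∀ (A : Finset (Fin n)) (w : Fin n → V), (∀ i, w i ∈ sat S) → (∀ i, i ∉ A → w i ∈ S) →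
      M w = 0 := by
    intro A
    induction A using Finset.induction_on with
    | empty =>
      intro w _ h
      exact hS w (fun i => h i (Finset.notMem_empty i))
    | insert a A ha ih =>
      intro w hw h
      have h1 := hw a (M.toLinearMap w a) (by
        intro s hs
        rw [MultilinearMap.toLinearMap_apply]
        apply ih
        · intro i
          by_cases hi : i = a
          · subst hi
            rw [Function.update_self]
            exact subset_sat hs
          · rw [Function.update_of_ne hi]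
            exact hw i
        · intro i hiA
          by_cases hi : i = a
          · subst hi
            rw [Function.update_self]
            exact hs
          · rw [Function.update_of_ne hi]
            apply h
            rw [Finset.mem_insert, not_or]
            exact ⟨hi, hiA⟩)
      rw [MultilinearMap.toLinearMap_apply, Function.update_eq_self] at h1
      exact h1
  exact key Finset.univ w hw (fun i hi => absurd (Finset.mem_univ i) hi)

end sat

section rat

variable {k : Type} [Field k]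

/-- classes of polynomials -/
noncomputable def cp (P : k[X]) : UV (RatFunc k) := cl (algebraMap k[X] (RatFunc k) P)

theorem alg_ne_zero {P : k[X]} (hP : P ≠ 0) : algebraMap k[X] (RatFunc k) P ≠ 0 :=
  RatFunc.algebraMap_ne_zero hP

theorem cp_mul {P R : k[X]} (hP : P ≠ 0) (hR : R ≠ 0) : cp (P * R) = cp P + cp R := by
  unfold cp
  rw [map_mul, cl_mul (alg_ne_zero hP) (alg_ne_zero hR)]

theorem tors_cp_C (hk : ConstTors k) (c : k) (hc : c ≠ 0) : Tors (cp (C c)) := by
  unfold cp
  rw [RatFunc.algebraMap_C]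
  exact tors_C hk c hc

theorem all_mem_sat (u : UV (RatFunc k)) :
    u ∈ sat {u : UV (RatFunc k) | ∃ P : k[X], P ≠ 0 ∧ u = cp P} := by
  obtain ⟨f, hf, rfl⟩ := exists_cl u
  have h1 : f.num ≠ 0 := RatFunc.num_ne_zero hf
  have h2 : f.denom ≠ 0 := RatFunc.denom_ne_zero f
  have h3 : cl f = cp f.num - cp f.denom := by
    unfold cp
    rw [← cl_div (RatFunc.algebraMap_ne_zero h1) (RatFunc.algebraMap_ne_zero h2),
      RatFunc.num_div_denom]
  rw [h3]
  exact sub_mem (subset_sat ⟨_, h1, rfl⟩) (subset_sat ⟨_, h2, rfl⟩)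

theorem ev_xx (c : k) (R : k[X]) :
    eval₂ (RatFunc.C (K := k)) (xx c) R = algebraMap k[X] (RatFunc k) (taylor (-c) R) := by
  rw [taylor_apply, comp, hom_eval₂]
  congr 1
  rw [xx_eq, C_neg, sub_eq_add_neg]

theorem sigma_inj (c : k) :
    Function.Injective (eval₂RingHom (RatFunc.C (K := k)) ((xx c)⁻¹)) := by
  rw [injective_iff_map_eq_zero]
  intro P hP
  rw [coe_eval₂RingHom] at hP
  letI : Invertible (xx c)⁻¹ := invertibleOfNonzero (inv_ne_zero (xx_ne_zero c))
  have h1 := (eval₂_reverse_eq_zero_iff (RatFunc.C (K := k)) ((xx c)⁻¹) P).2 hP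
  rw [invOf_eq_inv, inv_inv, ev_xx] at h1
  have h2 := (map_eq_zero_iff _ (RatFunc.algebraMap_injective k)).1 h1
  rw [taylor_eq_zero] at h2
  exact reverse_eq_zero.1 h2

/-- the automorphism `x ↦ 1/(x-c)` (only used as a hom) -/
noncomputable def sigma (c : k) : RatFunc k →+* RatFunc k :=
  IsFractionRing.lift (A := k[X]) (K := RatFunc k) (sigma_inj c)

theorem sigma_alg (c : k) (R : k[X]) :
    sigma c (algebraMap k[X] (RatFunc k) R) = eval₂ (RatFunc.C (K := k)) ((xx c)⁻¹) R := by
  unfold sigma
  rw [IsFractionRing.lift_algebraMap]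
  rfl

theorem sigma_key (c : k) (P : k[X]) (hP : P ≠ 0) :
    cp P = clMap (sigma c) (cp (taylor c P).reverse - P.natDegree • cp X) := by
  have hx : xx c ≠ 0 := xx_ne_zero c
  letI : Invertible (xx c) := invertibleOfNonzero hx
  have h1 := eval₂_reverse_mul_pow (RatFunc.C (K := k)) (xx c) (taylor c P)
  rw [invOf_eq_inv, ev_xx, taylor_taylor, neg_add_cancel, taylor_zero, natDegree_taylor,
    ← sigma_alg] at h1
  have hR : (taylor c P).reverse ≠ 0 := by
    rw [Ne, reverse_eq_zero, taylor_eq_zero]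
    exact hP
  have h2 : sigma c (algebraMap k[X] (RatFunc k) X) = (xx c)⁻¹ := by
    rw [sigma_alg, eval₂_X]
  have h3 : sigma c (algebraMap k[X] (RatFunc k) (taylor c P).reverse) ≠ 0 := by
    rw [Ne, map_eq_zero]
    exact alg_ne_zero hR
  unfold cp
  rw [map_sub, map_nsmul, clMap_cl, clMap_cl, h2, cl_inv hx, ← h1,
    cl_mul h3 (pow_ne_zero _ hx), cl_pow hx, neg_nsmul, sub_neg_eq_add]

theorem natDegree_rev (c : k) (P : k[X]) (hc : P.eval c ≠ 0) :
    (taylor c P).reverse.natDegree = P.natDegree := by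
  rw [reverse_natDegree, natDegree_taylor]
  have : (taylor c P).natTrailingDegree = 0 := by
    rw [natTrailingDegree_eq_zero]
    right
    rw [taylor_coeff_zero]
    exact hc
  rw [this, Nat.sub_zero]

/-- the generators of degree 0, for irreducible polynomials of degree at most `E` -/
def S0 (k : Type) [Field k] (E : ℕ) : Set (UV (RatFunc k)) :=
  {u | ∃ P : k[X], P.Monic ∧ Irreducible P ∧ P.natDegree ≤ E ∧ u = cp P - P.natDegree • cp X}

theorem factor (hk : ConstTors k) (E : ℕ) (R : k[X]) :
    R ≠ 0 → R.natDegree ≤ E → cp R - R.natDegree • cp X ∈ sat (S0 k E) := by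
  induction R using UniqueFactorizationMonoid.induction_on_prime with
  | h₁ => intro h; exact absurd rfl h
  | h₂ x hx =>
    intro _ _
    obtain ⟨c, hc, rfl⟩ := Polynomial.isUnit_iff.1 hx
    rw [natDegree_C, zero_smul, sub_zero]
    exact tors_mem_sat (tors_cp_C hk c hc.ne_zero)
  | h₃ a p ha hp ih =>
    intro _ hE
    have hp0 : p ≠ 0 := hp.ne_zero
    have hl : p.leadingCoeff ≠ 0 := leadingCoeff_ne_zero.2 hp0
    have hli : p.leadingCoeff⁻¹ ≠ 0 := inv_ne_zero hl
    have h1 : p = C p.leadingCoeff * (p * C p.leadingCoeff⁻¹) := by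
      rw [mul_comm, mul_assoc, ← C_mul, inv_mul_cancel₀ hl, C_1, mul_one]
    have hm : (p * C p.leadingCoeff⁻¹).Monic := monic_mul_leadingCoeff_inv hp0
    have hd : (p * C p.leadingCoeff⁻¹).natDegree = p.natDegree :=
      natDegree_mul_C hli
    have hirr : Irreducible (p * C p.leadingCoeff⁻¹) := by
      have hu : IsUnit (C p.leadingCoeff⁻¹ : k[X]) := isUnit_C.2 (isUnit_iff_ne_zero.2 hli)
      exact (irreducible_mul_isUnit hu).2 hp.irreducible
    have h2 : cp p = cp (C p.leadingCoeff) + cp (p * C p.leadingCoeff⁻¹) := by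
      conv_lhs => rw [h1]
      exact cp_mul (C_ne_zero.2 hl) hm.ne_zero
    rw [natDegree_mul hp0 ha] at hE
    rw [cp_mul hp0 ha, natDegree_mul hp0 ha, h2]
    have e : cp (C p.leadingCoeff) + cp (p * C p.leadingCoeff⁻¹) + cp a -
        (p.natDegree + a.natDegree) • cp X = cp (C p.leadingCoeff) +
        ((cp (p * C p.leadingCoeff⁻¹) - p.natDegree • cp X) + (cp a - a.natDegree • cp X)) := by
      rw [add_smul]; abel
    rw [e]
    refine add_mem (tors_mem_sat (tors_cp_C hk _ hl)) (add_mem ?_ (ih ha (by omega)))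
    exact subset_sat ⟨_, hm, hirr, by rw [hd]; omega, by rw [hd]⟩

end rat

end Pool.Agent.Run7.h406.G
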