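import Pool.Agent.Run7.h406.G.B1

/-!
# The duality statement for `k(x)`, `k` infinite and algebraic over `F_p`
-/

namespace Pool.Agent.Run7.h406.G

open H39Gon H39Gon.TaskB Polynomial

section abs

variable {V : Type} [AddCommGroup V]

theorem abs_tors' (q n : ℕ) (t c1 c2 s1 s2 b : V) (h : Tors (t + c1 - c2)) :
    Tors (q • (t + (c1 + s1) - (c2 + s2)) - ((q • s1 - n • b) - (q • s2 - n • b))) := by
  have := h.nsmul q
  convert this using 1
  simp only [smul_add, smul_sub]
  abel

theorem abs1 {α : Type} (q : ℕ) (s : Finset α) (x : α → V) (n : α → ℕ) (b : V) :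
    q • ∑ i ∈ s, x i - (∑ i ∈ s, n i) • b = ∑ i ∈ s, (q • x i - n i • b) := by
  rw [Finset.sum_sub_distrib, Finset.smul_sum, Finset.sum_smul]

theorem abs2 (q n m : ℕ) (x y b : V) :
    q • (x + y) - (n + m) • b = (q • x - n • b) + (q • y - m • b) := by
  rw [smul_add, add_smul]
  abel

theorem abs3 {K : Type} [Fintype K] (x : K → V) :
    ∑ a : K, ((Fintype.card K) • x a - 1 • ∑ b : K, x b) = 0 := by
  simp only [one_smul]
  rw [Finset.sum_sub_distrib, ← Finset.smul_sum, Finset.sum_const, Finset.card_univ, sub_self]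

theorem abs4 (q e : ℕ) (x y b : V) :
    q • (x - e • y) = (q • x - e • b) - e • (q • y - 1 • b) := by
  rw [smul_sub, smul_sub, one_smul, smul_comm q e y]
  abel

end abs

section app

variable {k : Type} [Field k] {K : Type} [Field K] [Fintype K] {Ι : Type}

/-- class of a polynomial with coefficients in `K` -/
noncomputable def cK (ι : K →+* k) (P : K[X]) : UV (RatFunc k) := cp (P.map ι)

/-- normalised class of a polynomial with coefficients in `K` -/
noncomputable def nK (ι : K →+* k) (P : K[X]) : UV (RatFunc k) :=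
  (Fintype.card K) • cK ι P - P.natDegree • ∑ b : K, cK ι (X - C b)

omit [Fintype K] in
theorem cK_mul (ι : K →+* k) {P R : K[X]} (hP : P ≠ 0) (hR : R ≠ 0) :
    cK ι (P * R) = cK ι P + cK ι R := by
  unfold cK
  rw [Polynomial.map_mul, cp_mul]
  · exact (Polynomial.map_ne_zero hP)
  · exact (Polynomial.map_ne_zero hR)

omit [Fintype K] in
theorem cK_one (ι : K →+* k) : cK ι 1 = 0 := by
  unfold cK cp
  rw [Polynomial.map_one, map_one, cl_one]

omit [Fintype K] in
theorem cK_prod (ι : K →+* k) {α : Type} (s : Finset α) (f : α → K[X]) (h : ∀ i ∈ s, f i ≠ 0) :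
    cK ι (∏ i ∈ s, f i) = ∑ i ∈ s, cK ι (f i) := by
  classical
  induction s using Finset.induction_on with
  | empty => simp [cK_one]
  | insert a s ha ih =>
    rw [Finset.prod_insert ha, Finset.sum_insert ha,
      cK_mul ι (h a (Finset.mem_insert_self _ _))
        (Finset.prod_ne_zero_iff.2 (fun i hi => h i (Finset.mem_insert_of_mem hi))),
      ih (fun i hi => h i (Finset.mem_insert_of_mem hi))]

theorem nK_prod (ι : K →+* k) {α : Type} (s : Finset α) (f : α → K[X]) (h : ∀ i ∈ s, (f i).Monic) :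
    nK ι (∏ i ∈ s, f i) = ∑ i ∈ s, nK ι (f i) := by
  unfold nK
  rw [cK_prod ι s f (fun i hi => (h i hi).ne_zero), natDegree_prod_of_monic _ _ h]
  exact abs1 _ _ _ _ _

theorem nK_mul (ι : K →+* k) {P R : K[X]} (hP : P.Monic) (hR : R.Monic) :
    nK ι (P * R) = nK ι P + nK ι R := by
  unfold nK
  rw [cK_mul ι hP.ne_zero hR.ne_zero, hP.natDegree_mul hR]
  exact abs2 _ _ _ _ _ _

theorem sum_nK (ι : K →+* k) : ∑ a : K, nK ι (X - C a) = 0 := by
  unfold nK
  simp only [natDegree_X_sub_C]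
  exact abs3 _

/-- `q cl(-a P / (b R)) = ν(P) - ν(R)` modulo torsion, for monic `P`, `R` of the same degree -/
theorem tors_gen (hk : ConstTors k) (ι : K →+* k) (P R : K[X]) (hP : P.Monic) (hR : R.Monic)
    (hd : P.natDegree = R.natDegree) (a b : Kˣ) :
    Tors ((Fintype.card K) • cl (-(algebraMap k[X] (RatFunc k) ((C (a : K) * P).map ι)) /
      (algebraMap k[X] (RatFunc k) ((C (b : K) * R).map ι))) - (nK ι P - nK ι R)) := by
  have ha : (a : K) ≠ 0 := Units.ne_zero a
  have hb : (b : K) ≠ 0 := Units.ne_zero b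
  have hA : algebraMap k[X] (RatFunc k) ((C (a : K) * P).map ι) ≠ 0 :=
    alg_ne_zero (Polynomial.map_ne_zero (mul_ne_zero (C_ne_zero.2 ha) hP.ne_zero))
  have hB : algebraMap k[X] (RatFunc k) ((C (b : K) * R).map ι) ≠ 0 :=
    alg_ne_zero (Polynomial.map_ne_zero (mul_ne_zero (C_ne_zero.2 hb) hR.ne_zero))
  have h2 : cl (-(algebraMap k[X] (RatFunc k) ((C (a : K) * P).map ι)) /
      (algebraMap k[X] (RatFunc k) ((C (b : K) * R).map ι))) =
      cl (-1 : RatFunc k) + (cp (C (ι a)) + cK ι P) - (cp (C (ι b)) + cK ι R) := by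
    rw [neg_div, ← neg_one_mul, cl_mul (by simp) (div_ne_zero hA hB), cl_div hA hB]
    have e1 : cl (algebraMap k[X] (RatFunc k) ((C (a : K) * P).map ι)) = cp (C (ι a)) + cK ι P := by
      have := cK_mul ι (C_ne_zero.2 ha) hP.ne_zero
      unfold cK at this
      rw [Polynomial.map_C] at this
      exact this
    have e2 : cl (algebraMap k[X] (RatFunc k) ((C (b : K) * R).map ι)) = cp (C (ι b)) + cK ι R := by
      have := cK_mul ι (C_ne_zero.2 hb) hR.ne_zero
      unfold cK at this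
      rw [Polynomial.map_C] at this
      exact this
    rw [e1, e2]
    abel
  rw [h2]
  unfold nK
  rw [← hd]
  exact abs_tors' _ _ _ _ _ _ _ _
    ((tors_neg_one.add (tors_cp_C hk _ (by rw [Ne, map_eq_zero]; exact ha))).sub
      (tors_cp_C hk _ (by rw [Ne, map_eq_zero]; exact hb)))

/-- slots of a group -/
theorem slots_sum {d n : ℕ} (ι : K →+* k) {pol : Ι → K[X]} (hmon : ∀ i, (pol i).Monic)
    (g : Fin n → Fin 3) (t : Fin n → K ⊕ Ι) (U : Finset (Fin n)) (L : Finset (Fin 3 × Fin d))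
    (z : Fin 3 × Fin d → K) (Y : Fin 3) :
    nK ι (MU pol t g U Y * ∏ i ∈ sl L Y, (X - C (z (Y, i)))) =
      ∑ i ∈ U.filter (fun i => g i = Y), nK ι (pl pol (t i)) +
        ∑ p ∈ L.filter (fun p => p.1 = Y), nK ι (X - C (z p)) := by
  classical
  rw [nK_mul ι (MU_monic hmon t g U Y) (monic_prod_of_monic _ _ (fun i _ => monic_X_sub_C _))]
  congr 1
  · unfold MU
    exact nK_prod ι _ _ (fun i _ => pl_monic hmon _)
  · rw [nK_prod ι _ _ (fun i _ => monic_X_sub_C _)]
    apply Finset.sum_bij (fun i _ => (Y, i))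
    · intro i hi
      rw [mem_sl] at hi
      simp [hi]
    · intro i _ j _ h
      simpa using h
    · intro b hb
      simp only [Finset.mem_filter] at hb
      refine ⟨b.2, ?_, ?_⟩
      · rw [mem_sl, ← hb.2]; exact hb.1
      · rw [← hb.2]
    · intro i _
      rfl

/-- weights of the slots -/
noncomputable def wt {d n : ℕ} (c : Fin 3 → ℤ) (g : Fin n → Fin 3) (U : Finset (Fin n))
    (L : Finset (Fin 3 × Fin d)) (s : (Fin 3 × Fin d) ⊕ Fin n) : ℤ :=
  open Classical in if s ∈ L.disjSum U then c (gr g s) else 0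

theorem wt_sum {V : Type} [AddCommGroup V] {d n : ℕ} (c : Fin 3 → ℤ) (g : Fin n → Fin 3)
    (U : Finset (Fin n)) (L : Finset (Fin 3 × Fin d)) (v : (Fin 3 × Fin d) ⊕ Fin n → V) :
    ∑ s, wt c g U L s • v s = ∑ Y : Fin 3, c Y •
      (∑ i ∈ U.filter (fun i => g i = Y), v (Sum.inr i) +
        ∑ p ∈ L.filter (fun p => p.1 = Y), v (Sum.inl p)) := by
  classical
  have h1 : ∀ s, wt c g U L s • v s = if s ∈ L.disjSum U then c (gr g s) • v s else 0 := by
    intro s
    unfold wt
    split_ifs <;> simp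
  simp only [h1]
  rw [Finset.sum_ite_mem, Finset.univ_inter, Finset.sum_disjSum]
  have h2 : ∑ p ∈ L, c (gr g (Sum.inl p)) • v (Sum.inl p) =
      ∑ Y : Fin 3, c Y • ∑ p ∈ L.filter (fun p => p.1 = Y), v (Sum.inl p) := by
    rw [← Finset.sum_fiberwise L (fun p => p.1)]
    refine Finset.sum_congr rfl fun Y _ => ?_
    rw [Finset.smul_sum]
    refine Finset.sum_congr rfl fun p hp => ?_
    rw [Finset.mem_filter] at hp
    simp [gr, hp.2]
  have h3 : ∑ i ∈ U, c (gr (d := d) g (Sum.inr i)) • v (Sum.inr i) =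
      ∑ Y : Fin 3, c Y • ∑ i ∈ U.filter (fun i => g i = Y), v (Sum.inr i) := by
    rw [← Finset.sum_fiberwise U (fun i => g i)]
    refine Finset.sum_congr rfl fun Y _ => ?_
    rw [Finset.smul_sum]
    refine Finset.sum_congr rfl fun p hp => ?_
    rw [Finset.mem_filter] at hp
    simp [gr, hp.2]
  rw [h2, h3, ← Finset.sum_add_distrib]
  refine Finset.sum_congr rfl fun Y _ => ?_
  rw [← smul_add, add_comm]

theorem c0z_three {V : Type} [AddCommGroup V] (v : Fin 3 → V) :
    ∑ Y : Fin 3, c0z Y • v Y = v 1 - v 2 := by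
  rw [Fin.sum_univ_three]
  simp [c0z, sub_eq_add_neg]

theorem c1z_three {V : Type} [AddCommGroup V] (v : Fin 3 → V) :
    ∑ Y : Fin 3, c1z Y • v Y = v 0 - v 2 := by
  rw [Fin.sum_univ_three]
  simp [c1z, sub_eq_add_neg]

end app

end Pool.Agent.Run7.h406.G
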