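import Pool.Agent.Run7.h406.G.B2

/-!
# The duality statement for `k(x)`, `k` infinite and algebraic over `F_p`
-/

namespace Pool.Agent.Run7.h406.G

open H39Gon H39Gon.TaskB Polynomial

section app

variable {k : Type} [Field k] {K : Type} [Field K] [Fintype K] {Ι : Type}

theorem G_prod {m d : ℕ} (g : Fin (m + 2) → Fin 3) (U : Finset (Fin (m + 2)))
    (L : Finset (Fin 3 × Fin d)) (r : Fin (m + 2) → (Fin 3 × Fin d) ⊕ Fin (m + 2))
    [Decidable (∀ i, r i ∈ L.disjSum U)] :
    ((wt c0z g U L (r 0) : ℤ) : ℝ) * ∏ i : Fin (m + 1), ((wt c1z g U L (r i.succ) : ℤ) : ℝ) =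
      if ∀ i, r i ∈ L.disjSum U then sgg g r else 0 := by
  classical
  split_ifs with h
  · unfold sgg wt
    rw [if_pos (h 0), c0z_cast]
    congr 1
    refine Finset.prod_congr rfl fun i _ => ?_
    rw [if_pos (h i.succ), c1z_cast]
  · push Not at h
    obtain ⟨i, hi⟩ := h
    induction i using Fin.cases with
    | zero =>
      unfold wt
      rw [if_neg hi]
      simp
    | succ i =>
      rw [Finset.prod_eq_zero (Finset.mem_univ i), mul_zero]
      unfold wt
      rw [if_neg hi]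
      simp

theorem relK {m d : ℕ} (hk : ConstTors k) (ι : K →+* k) {pol : Ι → K[X]}
    (hmon : ∀ i, (pol i).Monic)
    (Q : MultilinearMap ℤ (fun _ : Fin (m + 1) => UV (RatFunc k)) (UV (RatFunc k) →ₗ[ℤ] ℚ))
    (hQ : ∀ f : RatFunc k, f ≠ 0 → f ≠ 1 → Q (fun _ => cl f) (cl (1 - f)) = 0)
    (g : Fin (m + 2) → Fin 3) (t : Fin (m + 2) → K ⊕ Ι) (U : Finset (Fin (m + 2)))
    (L : Finset (Fin 3 × Fin d)) (z : Fin 3 × Fin d → K)
    (hdeg : ∀ Y, (∑ i ∈ U.filter (fun i => g i = Y), (pl pol (t i)).natDegree) +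
      (sl L Y).card = d)
    (hl : ∃ l : Fin 3 → Kˣ, ∑ Y : Fin 3, C (l Y : K) *
          (MU pol t g U Y * ∏ i ∈ sl L Y, (X - C (z (Y, i)))) = 0)
    [∀ j : Fin (m + 2) → (Fin 3 × Fin d) ⊕ Fin (m + 2), Decidable (∀ i, j i ∈ L.disjSum U)] :
    ∑ j : Fin (m + 2) → (Fin 3 × Fin d) ⊕ Fin (m + 2),
      (if ∀ i, j i ∈ L.disjSum U then sgg g j * PS Q (fun i => nK ι (pl pol ((vl z t ∘ j) i)))
        else 0) = 0 := by
  classical
  obtain ⟨l, hl⟩ := hl
  obtain ⟨R, hR⟩ : ∃ R : Fin 3 → K[X], ∀ Y, R Y =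
      MU pol t g U Y * ∏ i ∈ sl L Y, (X - C (z (Y, i))) := ⟨fun Y => _, fun _ => rfl⟩
  have hRm : ∀ Y, (R Y).Monic := fun Y => by
    rw [hR]
    exact (MU_monic hmon t g U Y).mul (monic_prod_of_monic _ _ (fun i _ => monic_X_sub_C _))
  have hRd : ∀ Y, (R Y).natDegree = d := fun Y => by
    rw [hR, (MU_monic hmon t g U Y).natDegree_mul
      (monic_prod_of_monic _ _ (fun i _ => monic_X_sub_C _)), MU_natDegree hmon,
      natDegree_prod_of_monic _ _ (fun i _ => monic_X_sub_C _)]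
    simp only [natDegree_X_sub_C, Finset.sum_const, smul_eq_mul, mul_one]
    exact hdeg Y
  simp only [← hR] at hl
  set A : Fin 3 → RatFunc k := fun Y => algebraMap k[X] (RatFunc k) ((C (l Y : K) * R Y).map ι)
    with hA
  have hA0 : ∀ Y, A Y ≠ 0 := fun Y =>
    alg_ne_zero (Polynomial.map_ne_zero (mul_ne_zero (C_ne_zero.2 (Units.ne_zero _)) (hRm Y).ne_zero))
  have hsum : A 0 + A 1 + A 2 = 0 := by
    have h1 := congrArg ((algebraMap k[X] (RatFunc k)).comp (mapRingHom ι)) hl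
    rw [map_sum, map_zero, Fin.sum_univ_three] at h1
    exact h1
  set f : RatFunc k := -A 0 / A 2 with hf
  have hf0 : f ≠ 0 := div_ne_zero (neg_ne_zero.2 (hA0 0)) (hA0 2)
  have hf1 : 1 - f = - A 1 / A 2 := by
    rw [hf, eq_div_iff (hA0 2), sub_mul, div_mul_cancel₀ _ (hA0 2)]
    linear_combination hsum
  have hf2 : f ≠ 1 := by
    intro h
    rw [h, sub_self] at hf1
    exact (div_ne_zero (neg_ne_zero.2 (hA0 1)) (hA0 2)) hf1.symm
  have hq := hQ f hf0 hf2
  have e1 : PS Q (Fin.cons ((Fintype.card K) • cl (1 - f))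
      (fun _ => (Fintype.card K) • cl f) : Fin (m + 2) → UV (RatFunc k)) = 0 := by
    obtain ⟨c, -, hc⟩ := PS_diag Q ((Fintype.card K) • cl f) ((Fintype.card K) • cl (1 - f))
    rw [hc]
    have h2 : Q (fun _ => (Fintype.card K) • cl f) =
        (∏ _i : Fin (m + 1), (Fintype.card K : ℤ)) • Q (fun _ => cl f) := by
      rw [← MultilinearMap.map_smul_univ]
      simp
    rw [h2, LinearMap.smul_apply, map_nsmul, hq]
    simp
  obtain ⟨G, hG⟩ : ∃ G : Fin (m + 2) → ((Fin 3 × Fin d) ⊕ Fin (m + 2) → ℤ),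
      G = Fin.cons (wt c0z g U L) (fun _ => wt c1z g U L) := ⟨_, rfl⟩
  have e2 : PS Q (Fin.cons ((Fintype.card K) • cl (1 - f))
      (fun _ => (Fintype.card K) • cl f) : Fin (m + 2) → UV (RatFunc k)) =
      PS Q (fun i => ∑ s, G i s • nK ι (pl pol (vl z t s))) := by
    apply map_eq_of_tors
    intro i
    have hs : ∀ Y, ∑ i ∈ U.filter (fun i => g i = Y), nK ι (pl pol (vl z t (Sum.inr i))) +
        ∑ p ∈ L.filter (fun p => p.1 = Y), nK ι (pl pol (vl z t (Sum.inl p))) = nK ι (R Y) := by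
      intro Y
      rw [hR, slots_sum ι hmon g t U L z Y]
      rfl
    induction i using Fin.cases with
    | zero =>
      simp only [Fin.cons_zero, hG]
      rw [wt_sum]
      simp only [hs]
      rw [c0z_three, hf1]
      exact tors_gen hk ι (R 1) (R 2) (hRm 1) (hRm 2) (by rw [hRd, hRd]) (l 1) (l 2)
    | succ j =>
      simp only [Fin.cons_succ, hG]
      rw [wt_sum]
      simp only [hs]
      rw [c1z_three, hf]
      exact tors_gen hk ι (R 0) (R 2) (hRm 0) (hRm 2) (by rw [hRd, hRd]) (l 0) (l 2)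
  rw [e2, map_lincomb] at e1
  refine Eq.trans (Finset.sum_congr rfl ?_) e1
  intro r _
  rw [Fin.prod_univ_succ (fun i => (G i (r i) : ℝ))]
  simp only [hG, Fin.cons_zero, Fin.cons_succ]
  rw [G_prod g U L r]
  split_ifs
  · rfl
  · rw [zero_mul]

theorem PS_comp {V W : Type} [AddCommGroup V] [AddCommGroup W] {m : ℕ}
    (Q : MultilinearMap ℤ (fun _ : Fin (m + 1) => V) (V →ₗ[ℤ] ℚ)) (f : W →ₗ[ℤ] V)
    (w : Fin (m + 2) → W) :
    PS ((LinearMap.lcomp ℤ ℚ f).compMultilinearMap (Q.compLinearMap (fun _ => f))) w =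
      PS Q (fun i => f (w i)) := by
  rw [PS_apply, PS_apply]
  apply Finset.sum_congr rfl
  intro σ _
  rw [P1_apply, P1_apply]
  rfl

theorem coprime_of_ne {P R : k[X]} (hP : P.Monic) (hPi : Irreducible P) (hR : R.Monic)
    (hRi : Irreducible R) (h : P ≠ R) : IsCoprime P R := by
  rw [hPi.coprime_iff_not_dvd]
  intro hd
  apply h
  exact eq_of_monic_of_associated hP hR (hPi.associated_of_dvd hRi hd)

theorem exists_finite_field (p : ℕ) [Fact p.Prime] [Algebra (ZMod p) k]
    [Algebra.IsAlgebraic (ZMod p) k] (S : Finset k) :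
    ∃ (K : Type) (_ : Field K) (_ : Fintype K) (ι : K →+* k),
      (∀ a ∈ S, ∃ b, ι b = a) ∧ S.card ≤ Fintype.card K := by
  classical
  have hfd : FiniteDimensional (ZMod p) (IntermediateField.adjoin (ZMod p) (S : Set k)) :=
    IntermediateField.finiteDimensional_adjoin
      (fun x _ => (Algebra.IsAlgebraic.isAlgebraic x).isIntegral)
  have hF : Finite (IntermediateField.adjoin (ZMod p) (S : Set k)) :=
    Module.finite_of_finite (ZMod p)
  let _ : Fintype (IntermediateField.adjoin (ZMod p) (S : Set k)) := Fintype.ofFinite _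
  refine ⟨IntermediateField.adjoin (ZMod p) (S : Set k), inferInstance, inferInstance,
    algebraMap _ k, ?_, ?_⟩
  · intro a ha
    exact ⟨⟨a, IntermediateField.subset_adjoin _ _ ha⟩, rfl⟩
  · rw [← Fintype.card_coe S]
    exact Fintype.card_le_of_injective
      (fun a : S => (⟨a.1, IntermediateField.subset_adjoin _ _ a.2⟩ :
        IntermediateField.adjoin (ZMod p) (S : Set k)))
      (by
        intro a b hab
        apply Subtype.ext
        exact congrArg (fun x : IntermediateField.adjoin (ZMod p) (S : Set k) => (x : k)) hab)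

theorem constTors (p : ℕ) [Fact p.Prime] [Algebra (ZMod p) k]
    [Algebra.IsAlgebraic (ZMod p) k] : ConstTors k := by
  intro c hc
  obtain ⟨K, _, _, ι, hι, -⟩ := exists_finite_field p {c}
  obtain ⟨b, hb⟩ := hι c (by simp)
  have hb0 : b ≠ 0 := by
    rintro rfl
    exact hc (by rw [← hb, map_zero])
  have h1 : 0 < Fintype.card K - 1 := by
    have := Fintype.one_lt_card (α := K)
    omega
  exact ⟨Fintype.card K - 1, h1, by
    rw [← hb, ← map_pow, FiniteField.pow_card_sub_one_eq_one b hb0, map_one]⟩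

end app

end Pool.Agent.Run7.h406.G
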