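import Pool.Agent.Run7.h406.G.B3

/-!
# The duality statement for `k(x)`, `k` infinite and algebraic over `F_p`: end of the proof
-/

namespace Pool.Agent.Run7.h406.G

open H39Gon H39Gon.TaskB Polynomial

section app

/-- the case of monic irreducible polynomials with coefficients in a large finite field -/
theorem PS_lift {m E : ℕ} (hE1 : 1 ≤ E) : ∃ q0 : ℕ, ∀ (k : Type) [Field k], ConstTors k →
    ∀ (K : Type) [Field K] [Fintype K] (ι : K →+* k), q0 ≤ Fintype.card K →
    ∀ (Q : MultilinearMap ℤ (fun _ : Fin (m + 1) => UV (RatFunc k)) (UV (RatFunc k) →ₗ[ℤ] ℚ)),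
    (∀ f : RatFunc k, f ≠ 0 → f ≠ 1 → Q (fun _ => cl f) (cl (1 - f)) = 0) →
    ∀ (P : Fin (m + 2) → k[X]), (∀ i, (P i).Monic) → (∀ i, Irreducible (P i)) →
    (∀ i, (P i).natDegree ≤ E) → (∀ i, ∃ R : K[X], R.map ι = P i) →
    PS Q (fun i => cp (P i) - (P i).natDegree • cp X) = 0 := by
  classical
  obtain ⟨q0, hq0⟩ := FTG_all m E hE1
  refine ⟨q0, ?_⟩
  intro k _ hk K _ _ ι hq Q hQ P hPm hPi hE hlift
  choose R hR using hlift
  -- the additional symbols
  set T : Finset k[X] := (Finset.univ.image P).filter (fun A => A.natDegree ≠ 1) with hT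
  have hTm : ∀ A : T, ∃ B : K[X], B.map ι = A.1 ∧ (A.1).Monic ∧ Irreducible A.1 ∧
      (A.1).natDegree ≤ E ∧ (A.1).natDegree ≠ 1 := by
    rintro ⟨A, hA⟩
    rw [hT, Finset.mem_filter, Finset.mem_image] at hA
    obtain ⟨⟨i, -, rfl⟩, h1⟩ := hA
    exact ⟨R i, hR i, hPm i, hPi i, hE i, h1⟩
  choose pol hpol hpm hpi hpE hp1 using hTm
  have hmon : ∀ A, (pol A).Monic := fun A => by
    rw [← monic_map_iff (f := ι), hpol]
    exact hpm A
  have hdeg : ∀ A, (pol A).natDegree ≤ E := fun A => by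
    rw [← natDegree_map ι, hpol]
    exact hpE A
  have hsm : ∀ s : K ⊕ T, ((pl pol s).map ι).Monic ∧ Irreducible ((pl pol s).map ι) := by
    rintro (a | A)
    · change ((X - C a).map ι).Monic ∧ Irreducible ((X - C a).map ι)
      rw [Polynomial.map_sub, map_X, map_C]
      exact ⟨monic_X_sub_C _, irreducible_X_sub_C _⟩
    · change ((pol A).map ι).Monic ∧ Irreducible ((pol A).map ι)
      rw [hpol]
      exact ⟨hpm A, hpi A⟩
  have hinj : ∀ s s' : K ⊕ T, s ≠ s' → (pl pol s).map ι ≠ (pl pol s').map ι := by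
    rintro (a | A) (b | B) hne heq
    · change (X - C a).map ι = (X - C b).map ι at heq
      have h1 := Polynomial.map_injective ι ι.injective heq
      have h2 : a = b := by
        have := congrArg (fun P => P.coeff 0) h1
        simpa using this
      exact hne (by rw [h2])
    · change (X - C a).map ι = (pol B).map ι at heq
      rw [hpol] at heq
      apply hp1 B
      rw [← heq, natDegree_map, natDegree_X_sub_C]
    · change (pol A).map ι = (X - C b).map ι at heq
      rw [hpol] at heq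
      apply hp1 A
      rw [heq, natDegree_map, natDegree_X_sub_C]
    · change (pol A).map ι = (pol B).map ι at heq
      rw [hpol, hpol] at heq
      exact hne (by rw [Subtype.ext heq])
  have hcop : ∀ s s' : K ⊕ T, s ≠ s' → IsCoprime (pl pol s) (pl pol s') := by
    intro s s' hne
    rw [← isCoprime_map ι]
    exact coprime_of_ne (hsm s).1 (hsm s).2 (hsm s').1 (hsm s').2 (hinj s s' hne)
  -- the theorem over `K`
  have key : ∀ t : Fin (m + 2) → K ⊕ T, PS Q (fun i => nK ι (pl pol (t i))) = 0 := by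
    refine hq0 K hq T pol hmon hdeg hcop (fun t => PS Q (fun i => nK ι (pl pol (t i)))) ?_ ?_ ?_
    · intro t i
      have h1 : ∀ x : K, (fun j => nK ι (pl pol (Function.update t i (Sum.inl x) j))) =
          Function.update (fun j => nK ι (pl pol (t j))) i (nK ι (X - C x)) := by
        intro x
        funext j
        by_cases hj : j = i
        · subst hj
          rw [Function.update_self, Function.update_self]
          rfl
        · rw [Function.update_of_ne hj, Function.update_of_ne hj]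
      simp only [h1]
      rw [← MultilinearMap.map_update_sum, sum_nK, MultilinearMap.map_update_zero]
    · intro σ t hσ
      exact PS_symm Q (fun i => nK ι (pl pol (t i))) σ hσ
    · intro g t U L z h1 h2
      exact relK hk ι hmon Q hQ g t U L z h1 h2
  apply multi_vanish (PS Q) {u | ∃ s : K ⊕ T, u = nK ι (pl pol s)}
  · intro w hw
    choose t ht using hw
    have : w = fun i => nK ι (pl pol (t i)) := funext ht
    rw [this]
    exact key t
  · intro i
    apply mem_sat_of_nsmul (Fintype.card K) Fintype.card_pos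
    have hs : ∃ s : K ⊕ T, (pl pol s).map ι = P i := by
      by_cases h1 : (P i).natDegree = 1
      · obtain ⟨b, hb⟩ : ∃ b, R i = X - C b := by
          have hm : (R i).Monic := by
            rw [← monic_map_iff (f := ι), hR]
            exact hPm i
          have hd : (R i).natDegree = 1 := by
            rw [← natDegree_map ι, hR]
            exact h1
          refine ⟨-(R i).coeff 0, ?_⟩
          rw [hm.eq_X_add_C hd]
          simp
        refine ⟨Sum.inl b, ?_⟩
        change (X - C b).map ι = P i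
        rw [← hb, hR]
      · refine ⟨Sum.inr ⟨P i, ?_⟩, ?_⟩
        · rw [hT, Finset.mem_filter]
          exact ⟨Finset.mem_image_of_mem _ (Finset.mem_univ i), h1⟩
        · exact hpol _
    obtain ⟨s, hs⟩ := hs
    have e1 : nK ι (pl pol s) = (Fintype.card K) • cp (P i) - (P i).natDegree •
        ∑ b : K, cK ι (X - C b) := by
      unfold nK
      rw [← natDegree_map ι, hs]
      unfold cK
      rw [hs]
    have e2 : nK ι (pl pol (Sum.inl 0 : K ⊕ T)) = (Fintype.card K) • cp (X : k[X]) - 1 •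
        ∑ b : K, cK ι (X - C b) := by
      change nK ι (X - C 0) = _
      unfold nK
      rw [natDegree_X_sub_C]
      unfold cK
      rw [Polynomial.map_sub, map_X, map_C, map_zero, C_0, sub_zero]
    have e3 : (Fintype.card K) • (cp (P i) - (P i).natDegree • cp X) =
        nK ι (pl pol s) - (P i).natDegree • nK ι (pl pol (Sum.inl 0 : K ⊕ T)) := by
      rw [e1, e2]
      exact abs4 _ _ _ _ _
    have e4 : nK ι (pl pol (Sum.inl 0 : K ⊕ T)) ∈
        sat {u | ∃ s : K ⊕ T, u = nK ι (pl pol s)} := subset_sat ⟨_, rfl⟩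
    rw [e3]
    exact sub_mem (subset_sat ⟨s, rfl⟩) (nsmul_mem e4 _)

theorem PS_step (k : Type) [Field k] {m : ℕ} (hk : ConstTors k) (E : ℕ)
    (hirr : ∀ (Q : MultilinearMap ℤ (fun _ : Fin (m + 1) => UV (RatFunc k))
      (UV (RatFunc k) →ₗ[ℤ] ℚ)),
      (∀ f : RatFunc k, f ≠ 0 → f ≠ 1 → Q (fun _ => cl f) (cl (1 - f)) = 0) →
      ∀ (P : Fin (m + 2) → k[X]), (∀ i, (P i).Monic) → (∀ i, Irreducible (P i)) →
      (∀ i, (P i).natDegree ≤ E) → PS Q (fun i => cp (P i) - (P i).natDegree • cp X) = 0)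
    (Q : MultilinearMap ℤ (fun _ : Fin (m + 1) => UV (RatFunc k)) (UV (RatFunc k) →ₗ[ℤ] ℚ))
    (hQ : ∀ f : RatFunc k, f ≠ 0 → f ≠ 1 → Q (fun _ => cl f) (cl (1 - f)) = 0)
    (P : Fin (m + 2) → k[X]) (hP0 : ∀ i, P i ≠ 0) (hE : ∀ i, (P i).natDegree ≤ E)
    (c : k) (hc : ∀ i, (P i).eval c ≠ 0) : PS Q (fun i => cp (P i)) = 0 := by
  classical
  set Q' : MultilinearMap ℤ (fun _ : Fin (m + 1) => UV (RatFunc k)) (UV (RatFunc k) →ₗ[ℤ] ℚ) :=
    (LinearMap.lcomp ℤ ℚ (clMap (sigma c))).compMultilinearMap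
      (Q.compLinearMap (fun _ => clMap (sigma c))) with hQ'
  have hQ'a : ∀ s v, Q' (fun _ => s) v =
      Q (fun _ => clMap (sigma c) s) (clMap (sigma c) v) := fun s v => rfl
  have hQ'r : ∀ f : RatFunc k, f ≠ 0 → f ≠ 1 → Q' (fun _ => cl f) (cl (1 - f)) = 0 := by
    intro f hf0 hf1
    rw [hQ'a, clMap_cl, clMap_cl, map_sub, map_one]
    apply hQ
    · rw [Ne, map_eq_zero]; exact hf0
    · intro h
      exact hf1 ((sigma c).injective (by rw [h, map_one]))
  have h1 : PS Q (fun i => cp (P i)) = PS Q' (fun i => cp (taylor c (P i)).reverse -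
      (taylor c (P i)).reverse.natDegree • cp X) := by
    rw [hQ', PS_comp]
    congr 1
    funext i
    rw [natDegree_rev c (P i) (hc i)]
    exact sigma_key c (P i) (hP0 i)
  rw [h1]
  apply multi_vanish (PS Q') (S0 k E)
  · intro w hw
    choose P hPm hPi hPE hP using hw
    have : w = fun i => cp (P i) - (P i).natDegree • cp X := funext hP
    rw [this]
    exact hirr Q' hQ'r P hPm hPi hPE
  · intro i
    apply factor hk E
    · rw [Ne, reverse_eq_zero, taylor_eq_zero]
      exact hP0 i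
    · rw [natDegree_rev c (P i) (hc i)]
      exact hE i

theorem PS_zero (k : Type) [Field k] (p : ℕ) [Fact p.Prime] [Infinite k] [Algebra (ZMod p) k]
    [Algebra.IsAlgebraic (ZMod p) k] {m : ℕ}
    (Q : MultilinearMap ℤ (fun _ : Fin (m + 1) => UV (RatFunc k)) (UV (RatFunc k) →ₗ[ℤ] ℚ))
    (hQ : ∀ f : RatFunc k, f ≠ 0 → f ≠ 1 → Q (fun _ => cl f) (cl (1 - f)) = 0)
    (w : Fin (m + 2) → UV (RatFunc k)) : PS Q w = 0 := by
  classical
  have hk : ConstTors k := constTors p
  apply multi_vanish (PS Q) {u | ∃ P : k[X], P ≠ 0 ∧ u = cp P} ?_ w (fun i => all_mem_sat (w i))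
  intro w hw
  choose P hP0 hP using hw
  obtain ⟨c, hc⟩ : ∃ c, ∀ i, (P i).eval c ≠ 0 := by
    obtain ⟨c, hc⟩ := Infinite.exists_notMem_finset (∏ i, P i).roots.toFinset
    refine ⟨c, fun i hi => hc ?_⟩
    have h0 : ∏ i, P i ≠ 0 := Finset.prod_ne_zero_iff.2 (fun i _ => hP0 i)
    rw [Multiset.mem_toFinset, mem_roots h0, IsRoot.def, eval_prod]
    exact Finset.prod_eq_zero (Finset.mem_univ i) hi
  obtain ⟨E, hE1, hE⟩ : ∃ E : ℕ, 1 ≤ E ∧ ∀ i, (P i).natDegree ≤ E := by
    refine ⟨1 + ∑ i, (P i).natDegree, by omega, fun i => ?_⟩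
    have := Finset.single_le_sum (f := fun i => (P i).natDegree) (fun _ _ => Nat.zero_le _)
      (Finset.mem_univ i)
    omega
  have hw2 : w = fun i => cp (P i) := funext hP
  rw [hw2]
  refine PS_step k hk E ?_ Q hQ P hP0 hE c hc
  intro Q hQ P hPm hPi hPE
  obtain ⟨q0, hq0⟩ := PS_lift (m := m) hE1
  -- the finite field
  obtain ⟨S, hS, hScard⟩ := Infinite.exists_superset_card_eq
    ((Finset.univ : Finset (Fin (m + 2))).biUnion (fun i => (P i).coeffs))
    (max ((Finset.univ : Finset (Fin (m + 2))).biUnion (fun i => (P i).coeffs)).card q0)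
    (le_max_left _ _)
  obtain ⟨K, _, _, ι, hι, hcard⟩ := exists_finite_field p S
  have hq : q0 ≤ Fintype.card K :=
    le_trans (by rw [hScard]; exact le_max_right _ _) hcard
  refine hq0 k hk K ι hq Q hQ P hPm hPi hPE ?_
  intro i
  have : P i ∈ lifts ι := by
    rw [lifts_iff_coeff_lifts]
    intro n
    by_cases h0 : (P i).coeff n = 0
    · exact ⟨0, by rw [map_zero, h0]⟩
    · exact hι _ (hS (Finset.mem_biUnion.2 ⟨i, Finset.mem_univ _, coeff_mem_coeffs h0⟩))
  exact (mem_lifts _).1 this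

/-- finite constant fields -/
theorem PS_fin (m E : ℕ) : ∃ q0 : ℕ, ∀ (K : Type) [Field K] [Fintype K], q0 ≤ Fintype.card K →
    ∀ (Q : MultilinearMap ℤ (fun _ : Fin (m + 1) => UV (RatFunc K)) (UV (RatFunc K) →ₗ[ℤ] ℚ)),
    (∀ f : RatFunc K, f ≠ 0 → f ≠ 1 → Q (fun _ => cl f) (cl (1 - f)) = 0) →
    ∀ w : Fin (m + 2) → UV (RatFunc K),
      (∀ i, w i ∈ sat {u | ∃ P : K[X], P ≠ 0 ∧ P.natDegree ≤ E ∧ u = cp P}) → PS Q w = 0 := by
  classical
  obtain ⟨q0, hq0⟩ := PS_lift (m := m) (E := E + 1) (by omega)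
  refine ⟨max q0 ((m + 2) * E + 1), ?_⟩
  intro K _ _ hK Q hQ w hw
  have hk : ConstTors K := by
    intro c hc
    have h1 : 0 < Fintype.card K - 1 := by
      have := Fintype.one_lt_card (α := K)
      omega
    exact ⟨Fintype.card K - 1, h1, FiniteField.pow_card_sub_one_eq_one c hc⟩
  refine multi_vanish (PS Q) _ ?_ w hw
  intro w hw
  choose P hP0 hPE hP using hw
  obtain ⟨c, hc⟩ : ∃ c, ∀ i, (P i).eval c ≠ 0 := by
    have h0 : ∏ i, P i ≠ 0 := Finset.prod_ne_zero_iff.2 (fun i _ => hP0 i)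
    have h1 : (∏ i, P i).roots.toFinset.card < Fintype.card K := by
      calc (∏ i, P i).roots.toFinset.card ≤ (∏ i, P i).natDegree :=
            (Multiset.toFinset_card_le _).trans (card_roots' _)
        _ = ∑ i, (P i).natDegree := natDegree_prod _ _ (fun i _ => hP0 i)
        _ ≤ ∑ _i : Fin (m + 2), E := Finset.sum_le_sum (fun i _ => hPE i)
        _ = (m + 2) * E := by simp
        _ < Fintype.card K := lt_of_lt_of_le (Nat.lt_succ_self _) ((le_max_right _ _).trans hK)
    obtain ⟨c, hc⟩ : ∃ c, c ∉ (∏ i, P i).roots.toFinset := by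
      by_contra hcon
      push Not at hcon
      have := Finset.card_le_card (fun x _ => hcon x : (Finset.univ : Finset K) ⊆ _)
      rw [Finset.card_univ] at this
      omega
    refine ⟨c, fun i hi => hc ?_⟩
    rw [Multiset.mem_toFinset, mem_roots h0, IsRoot.def, eval_prod]
    exact Finset.prod_eq_zero (Finset.mem_univ i) hi
  have hw2 : w = fun i => cp (P i) := funext hP
  rw [hw2]
  refine PS_step K hk (E + 1) ?_ Q hQ P hP0 (fun i => (hPE i).trans (by omega)) c hc
  intro Q hQ P hPm hPi hPE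
  refine hq0 K hk K (RingHom.id K) ((le_max_left _ _).trans hK) Q hQ P hPm hPi hPE ?_
  intro i
  exact ⟨P i, Polynomial.map_id⟩

end app

/-- The duality statement for `k(x)`, `k` infinite and algebraic over `F_p`. -/
theorem spanDual_inf (k : Type) [Field k] [Infinite k] (p : ℕ) [Fact p.Prime]
    [Algebra (ZMod p) k] [Algebra.IsAlgebraic (ZMod p) k] (m : ℕ) : SpanDual (RatFunc k) m := by
  intro Q hQ s v
  obtain ⟨c, hc0, hc⟩ := PS_diag Q s v
  rw [PS_zero k p Q hQ] at hc
  have h4 := (mul_eq_zero.1 hc.symm).resolve_left hc0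
  exact_mod_cast h4

/-- The duality statement in bounded degree, for large finite constant fields. -/
theorem spanDual_fin (m E : ℕ) : ∃ q0 : ℕ, ∀ (K : Type) [Field K] [Fintype K],
    q0 ≤ Fintype.card K →
    ∀ (Q : MultilinearMap ℤ (fun _ : Fin (m + 1) => UV (RatFunc K)) (UV (RatFunc K) →ₗ[ℤ] ℚ)),
    (∀ f : RatFunc K, f ≠ 0 → f ≠ 1 → Q (fun _ => cl f) (cl (1 - f)) = 0) →
    ∀ s v : UV (RatFunc K),
      s ∈ sat {u | ∃ P : K[X], P ≠ 0 ∧ P.natDegree ≤ E ∧ u = cp P} →
      v ∈ sat {u | ∃ P : K[X], P ≠ 0 ∧ P.natDegree ≤ E ∧ u = cp P} → Q (fun _ => s) v = 0 := by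
  obtain ⟨q0, hq0⟩ := PS_fin m E
  refine ⟨q0, ?_⟩
  intro K _ _ hK Q hQ s v hs hv
  obtain ⟨c, hc0, hc⟩ := PS_diag Q s v
  rw [hq0 K hK Q hQ] at hc
  · have h4 := (mul_eq_zero.1 hc.symm).resolve_left hc0
    exact_mod_cast h4
  · intro i
    induction i using Fin.cases with
    | zero => exact hv
    | succ j => exact hs

end Pool.Agent.Run7.h406.G
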