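import Pool.Agent.Run7.h406.G.Inv

/-!
# The count theorem with prescribed monic factors
-/

namespace Pool.Agent.Run7.h406.G

open H39Gon Polynomial Finset

variable {K : Type} [Field K]

/-- number of `(λ_0, λ_1, λ_2)` with `∑ λ_X M_X ∏_{i ∈ S_X} (T - z(X,i)) = 0`. -/
noncomputable def WM {d : ℕ} (M : Fin 3 → K[X]) (S : Fin 3 → Finset (Fin d))
    (z : Fin 3 × Fin d → K) : ℝ :=
  (Nat.card {l : Fin 3 → Kˣ //
    ∑ Y : Fin 3, C (l Y : K) * (M Y * ∏ i ∈ S Y, (Polynomial.X - C (z (Y, i)))) = 0} : ℝ)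

/-- the error term -/
noncomputable def Er (d N q : ℕ) : ℝ :=
  (2 * d.factorial) * √((2 * d.factorial) / ((q : ℝ) - 1)) +
        ((1 + (N : ℝ) ^ 2 * (2 * d.factorial) / (q : ℝ)) ^ 2 - 1)

section

variable {d : ℕ} (S : Fin 3 → Finset (Fin d)) (n : Fin 3 → ℕ) (hlt : ∀ Y, (S Y).card < n Y)
  (M : Fin 3 → K[X]) (hX : ∀ Y, (M Y).natDegree + n Y = d + 1)

/-- the vectors `M_X g_X(ω)` -/
noncomputable def vecM (Y : Fin 3) (ω : Kˣ × (Fin d → K)) : degreeLT K (d + 1) :=
  mulMap (a := n Y) (b := d + 1) (M Y) (le_of_eq (hX Y)) (gf (S Y) (n Y) (hlt Y) ω)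

theorem WM_eq [Fintype K] [DecidableEq K] (z : Fin 3 × Fin d → K) :
    WM M S z = ∑ l : Fin 3 → Kˣ,
      (if ∑ Y : Fin 3, vecM S n hlt M hX Y (l Y, fun i => z (Y, i)) = 0 then (1 : ℝ) else 0) := by
  classical
  unfold WM
  rw [Nat.card_eq_fintype_card, Fintype.card_subtype, Finset.card_filter]
  push_cast
  apply Finset.sum_congr rfl
  intro l _
  have : (∑ Y : Fin 3, C (l Y : K) * (M Y * ∏ i ∈ S Y, (Polynomial.X - C (z (Y, i)))) = 0) ↔
      (∑ Y : Fin 3, vecM S n hlt M hX Y (l Y, fun i => z (Y, i)) = 0) := by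
    rw [← Submodule.coe_eq_zero, Submodule.coe_sum]
    have e : ∀ Y : Fin 3, ((vecM S n hlt M hX Y (l Y, fun i => z (Y, i)) :
        degreeLT K (d + 1)) : K[X]) =
        C (l Y : K) * (M Y * ∏ i ∈ S Y, (Polynomial.X - C (z (Y, i)))) := by
      intro Y
      unfold vecM
      rw [mulMap_coe, gf_coe]
      ring
    simp_rw [e]
  simp only [this]

theorem main_identity_gen [Fintype K] [DecidableEq K] :
    (((Fintype.card K : ℝ) ^ (d + 1) * ∑ z : Fin 3 × Fin d → K, WM M S z : ℝ) : ℂ) =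
      ∑ χ : AddChar (degreeLT K (d + 1)) ℂ, ∏ Y : Fin 3, ∑ ω, χ (vecM S n hlt M hX Y ω) := by
  classical
  have h1 : ∀ z' : Fin 3 × Fin d → K, (((Fintype.card K : ℝ) ^ (d + 1) * WM M S z' : ℝ) : ℂ)
      = ∑ l : Fin 3 → Kˣ, ∑ χ : AddChar (degreeLT K (d + 1)) ℂ,
        ∏ Y : Fin 3, χ (vecM S n hlt M hX Y (l Y, fun i => z' (Y, i))) := by
    intro z'
    rw [WM_eq S n hlt M hX]
    push_cast
    rw [Finset.mul_sum]
    apply Finset.sum_congr rfl
    intro l _
    have := AddChar.sum_apply_eq_ite (∑ Y : Fin 3, vecM S n hlt M hX Y (l Y, fun i => z' (Y, i)))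
    have h2 : ∀ χ : AddChar (degreeLT K (d + 1)) ℂ,
        χ (∑ Y : Fin 3, vecM S n hlt M hX Y (l Y, fun i => z' (Y, i))) =
        ∏ Y : Fin 3, χ (vecM S n hlt M hX Y (l Y, fun i => z' (Y, i))) := by
      intro χ
      rw [Fin.sum_univ_three, Fin.prod_univ_three, AddChar.map_add_eq_mul, AddChar.map_add_eq_mul]
    simp_rw [h2] at this
    rw [this, card_degreeLT]
    split_ifs <;> simp
  rw [Finset.mul_sum, Complex.ofReal_sum]
  simp_rw [h1]
  simp_rw [Finset.sum_comm (s := (univ : Finset (Fin 3 → Kˣ)))]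
  rw [Finset.sum_comm]
  apply Finset.sum_congr rfl
  intro χ _
  rw [Finset.prod_univ_sum]
  rw [Fintype.piFinset_univ, ← Finset.sum_product', Finset.univ_product_univ]
  exact Fintype.sum_equiv (reidx d K Kˣ) _ _ (fun p => rfl)

theorem vecM_norm [Fintype K] [DecidableEq K] (Y : Fin 3)
    (χ : AddChar (degreeLT K (d + 1)) ℂ) :
      ‖∑ ω, χ (vecM S n hlt M hX Y ω)‖ = (((Fintype.card K : ℝ) - 1) * (Fintype.card K : ℝ) ^ d) *
        nrm (gf (S Y) (n Y) (hlt Y))
        (resC (a := n Y) (b := d + 1) (M Y) (le_of_eq (hX Y)) χ) := by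
  have hq2 : 2 ≤ Fintype.card K := Fintype.one_lt_card
  have hcard : (Fintype.card (Kˣ × (Fin d → K)) : ℝ) =
      ((Fintype.card K : ℝ) - 1) * (Fintype.card K : ℝ) ^ d := by
    rw [Fintype.card_prod, Fintype.card_units K]
    push_cast [Nat.cast_sub (by omega : 1 ≤ Fintype.card K)]
    simp
  have hq1 : (1 : ℝ) ≤ (Fintype.card K : ℝ) - 1 := by
    have : (2 : ℝ) ≤ Fintype.card K := by exact_mod_cast hq2
    linarith
  unfold nrm
  rw [hcard, mul_div_cancel₀]
  · rfl
  · have : 0 < ((Fintype.card K : ℝ) - 1) * (Fintype.card K : ℝ) ^ d := by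
      apply mul_pos (by linarith)
      have : 0 < Fintype.card K := by omega
      positivity
    exact this.ne'

end

theorem count_gen [Fintype K] [DecidableEq K] {d N : ℕ} (hN : 3 * N ≤ d)
    (S : Fin 3 → Finset (Fin d)) (M : Fin 3 → K[X]) (hmon : ∀ Y, (M Y).Monic)
    (hcop : ∀ X Y : Fin 3, X ≠ Y → IsCoprime (M X) (M Y))
    (hdeg : ∀ Y, (M Y).natDegree + (S Y).card = d)
    (htot : (M 0).natDegree + (M 1).natDegree + (M 2).natDegree ≤ N) :
    |(∑ z : Fin 3 × Fin d → K, WM M S z) / (Fintype.card K : ℝ) ^ (3 * d)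
      - wbar (Fintype.card K) d| ≤ Er d N (Fintype.card K) * wbar (Fintype.card K) d := by
  classical
  obtain ⟨n, hn⟩ : ∃ n : Fin 3 → ℕ, ∀ Y, (S Y).card + 1 = n Y := ⟨fun Y => (S Y).card + 1, fun _ => rfl⟩
  have hlt : ∀ Y, (S Y).card < n Y := fun Y => by rw [← hn Y]; exact Nat.lt_succ_self _
  have hX : ∀ Y, (M Y).natDegree + n Y = d + 1 := fun Y => by
    rw [← hn Y, ← add_assoc, hdeg]
  have hq2 : 2 ≤ Fintype.card K := Fintype.one_lt_card
  set q : ℝ := (Fintype.card K : ℝ) with hqd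
  have hq : (0 : ℝ) < q := by rw [hqd]; exact_mod_cast Fintype.card_pos
  have hq2' : (2 : ℝ) ≤ q := by rw [hqd]; exact_mod_cast hq2
  have hq1 : (0 : ℝ) < q - 1 := by linarith
  set E := Er d N (Fintype.card K) with hE
  set SS : ℝ := ∑ z : Fin 3 × Fin d → K, WM M S z with hSdef
  have hmain := main_identity_gen S n hlt M hX
  rw [← hSdef, ← hqd] at hmain
  have hcard : (Fintype.card (Kˣ × (Fin d → K)) : ℝ) = (q - 1) * q ^ d := by
    rw [Fintype.card_prod, Fintype.card_units K]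
    push_cast [Nat.cast_sub (by omega : 1 ≤ Fintype.card K)]
    simp [hqd]
  have hone : ∏ Y : Fin 3, ∑ ω, (1 : AddChar (degreeLT K (d + 1)) ℂ) (vecM S n hlt M hX Y ω) =
      ((((q - 1) * q ^ d) ^ 3 : ℝ) : ℂ) := by
    simp only [AddChar.one_apply, sum_const, card_univ, nsmul_eq_mul, mul_one, prod_const,
      Fintype.card_fin]
    rw [← hcard]
    push_cast
    rfl
  have hdd : ∀ Y, (M Y).natDegree ≤ N := by
    intro Y
    fin_cases Y
    · change (M 0).natDegree ≤ N; omega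
    · change (M 1).natDegree ≤ N; omega
    · change (M 2).natDegree ≤ N; omega
  have herr := err_gen S n hn hlt M hmon hcop
    (fun Y => ∏ Z ∈ univ.erase Y, M Z) (fun Y => monic_prod_of_monic _ _ (fun Z _ => hmon Z))
    (∏ Z, M Z) (fun Y => mul_prod_erase univ M (mem_univ Y))
    (d + 1 - ((M 0).natDegree + (M 1).natDegree + (M 2).natDegree))
    (d + 1 - ((M 0).natDegree + (M 1).natDegree)) hX
    (by
      intro Y
      have h1 : (M Y).natDegree + (∏ Z ∈ univ.erase Y, M Z).natDegree =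
          (M 0).natDegree + (M 1).natDegree + (M 2).natDegree := by
        rw [← (hmon Y).natDegree_mul (monic_prod_of_monic _ _ (fun Z _ => hmon Z)),
          mul_prod_erase univ M (mem_univ Y), natDegree_prod_of_monic _ _ (fun Z _ => hmon Z),
          Fin.sum_univ_three]
      have h2 := hX Y
      omega)
    (by have := hX 0; omega) (by have := hX 1; omega) (by omega)
    (by
      intro Y
      have h1 : (M Y).natDegree + (∏ Z ∈ univ.erase Y, M Z).natDegree =
          (M 0).natDegree + (M 1).natDegree + (M 2).natDegree := by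
        rw [← (hmon Y).natDegree_mul (monic_prod_of_monic _ _ (fun Z _ => hmon Z)),
          mul_prod_erase univ M (mem_univ Y), natDegree_prod_of_monic _ _ (fun Z _ => hmon Z),
          Fin.sum_univ_three]
      have h2 := hX Y
      omega) N
    (by
      intro Y
      have h1 : (M Y).natDegree + (∏ Z ∈ univ.erase Y, M Z).natDegree =
          (M 0).natDegree + (M 1).natDegree + (M 2).natDegree := by
        rw [← (hmon Y).natDegree_mul (monic_prod_of_monic _ _ (fun Z _ => hmon Z)),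
          mul_prod_erase univ M (mem_univ Y), natDegree_prod_of_monic _ _ (fun Z _ => hmon Z),
          Fin.sum_univ_three]
      omega)
  have hdiff : ‖(((q ^ (d + 1) * SS - ((q - 1) * q ^ d) ^ 3 : ℝ)) : ℂ)‖ ≤
      ((q - 1) * q ^ d) ^ 3 * E := by
    rw [Complex.ofReal_sub, hmain, ← hone,
      ← Finset.sum_erase_add univ _ (mem_univ (1 : AddChar (degreeLT K (d + 1)) ℂ)),
      add_sub_cancel_right]
    refine (norm_sum_le _ _).trans ?_
    have hpos : 0 ≤ ((q - 1) * q ^ d) ^ 3 := by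
      have : 0 < (q - 1) * q ^ d := mul_pos (by linarith) (by positivity)
      positivity
    refine le_trans (le_of_eq ?_) (mul_le_mul_of_nonneg_left herr hpos)
    rw [Finset.mul_sum]
    apply Finset.sum_congr rfl
    intro χ _
    rw [norm_prod, Fin.prod_univ_three, vecM_norm, vecM_norm, vecM_norm]
    ring
  rw [Complex.norm_real, Real.norm_eq_abs] at hdiff
  have hw : wbar (Fintype.card K) d = ((q - 1) * q ^ d) ^ 3 / (q ^ (d + 1) * q ^ (3 * d)) := by
    unfold wbar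
    rw [← hqd, div_eq_div_iff (by positivity) (by positivity)]
    ring
  have e1 : SS / q ^ (3 * d) - wbar (Fintype.card K) d =
      (q ^ (d + 1) * SS - ((q - 1) * q ^ d) ^ 3) / (q ^ (d + 1) * q ^ (3 * d)) := by
    rw [hw]
    field_simp
  rw [e1, abs_div, abs_of_pos (by positivity : 0 < q ^ (d + 1) * q ^ (3 * d)), hw]
  rw [div_le_iff₀ (by positivity)]
  refine hdiff.trans (le_of_eq ?_)
  field_simp

open Filter Topology in
theorem Er_small (d N : ℕ) (ε : ℝ) (hε : 0 < ε) : ∃ q0 : ℕ, ∀ q, q0 ≤ q → Er d N q ≤ ε := by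
  have hlim : Tendsto (fun n : ℕ => (2 * (d.factorial : ℝ)) * √((2 * d.factorial) / ((n : ℝ) - 1)) +
        ((1 + (N : ℝ) ^ 2 * (2 * d.factorial) / (n : ℝ)) ^ 2 - 1)) atTop (𝓝 0) := by
    have hn : Tendsto (fun n : ℕ => (n : ℝ)) atTop atTop := tendsto_natCast_atTop_atTop
    have hn1 : Tendsto (fun n : ℕ => (n : ℝ) - 1) atTop atTop :=
      tendsto_atTop_add_const_right _ _ hn
    have l1 : Tendsto (fun n : ℕ => (2 * (d.factorial : ℝ)) / ((n : ℝ) - 1)) atTop (𝓝 0) :=
      hn1.const_div_atTop _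
    have l2 : Tendsto (fun n : ℕ => (N : ℝ) ^ 2 * (2 * d.factorial) / (n : ℝ)) atTop (𝓝 0) :=
      hn.const_div_atTop _
    have l3 : Tendsto (fun n : ℕ => √((2 * (d.factorial : ℝ)) / ((n : ℝ) - 1))) atTop (𝓝 0) := by
      have := l1.sqrt
      rwa [Real.sqrt_zero] at this
    have l4 := (l3.const_mul (2 * (d.factorial : ℝ))).add (((l2.const_add 1).pow 2).sub_const 1)
    simpa using l4
  have hev : ∀ᶠ n : ℕ in atTop, (2 * (d.factorial : ℝ)) * √((2 * d.factorial) / ((n : ℝ) - 1)) +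
        ((1 + (N : ℝ) ^ 2 * (2 * d.factorial) / (n : ℝ)) ^ 2 - 1) < ε :=
    hlim.eventually (gt_mem_nhds hε)
  obtain ⟨q0, hq0⟩ := Filter.eventually_atTop.1 hev
  exact ⟨q0, fun q hq => (hq0 q hq).le⟩

end Pool.Agent.Run7.h406.G
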