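import Mathlib

/-!
# Fields which are locally rational function fields of one variable
-/

namespace Pool.Agent.Run7.h406.G

/-- Every finite subset of `F` is contained in the image of a field `k(x)`, where `k` is an
infinite algebraic extension of `F_p` for some prime number `p`. -/
def LocRational (F : Type) [Field F] : Prop :=
  ∀ S : Finset F, ∃ (p : ℕ) (_ : Fact p.Prime) (k : Type) (_ : Field k) (_ : Infinite k)
    (_ : Algebra (ZMod p) k) (_ : Algebra.IsAlgebraic (ZMod p) k) (φ : RatFunc k →+* F),
    ∀ x ∈ S, ∃ y, φ y = x

end Pool.Agent.Run7.h406.G
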