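import Pool.Agent.Run7.h406.G.Tv

/-!
# The finite field theorem with additional symbols
-/

namespace Pool.Agent.Run7.h406.G

open H39Gon H39Gon.A2 Polynomial Finset

/-- the polynomial of a symbol -/
noncomputable def pl {K Ι : Type} [Field K] (pol : Ι → K[X]) : K ⊕ Ι → K[X] :=
  Sum.elim (fun a => X - C a) pol

/-- value of a slot -/
def vl {K Ι : Type} {d n : ℕ} (z : Fin 3 × Fin d → K) (t : Fin n → K ⊕ Ι) :
    (Fin 3 × Fin d) ⊕ Fin n → K ⊕ Ι :=
  Sum.elim (fun p => Sum.inl (z p)) t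

/-- group of a slot -/
def gr {d n : ℕ} (g : Fin n → Fin 3) : (Fin 3 × Fin d) ⊕ Fin n → Fin 3 :=
  Sum.elim Prod.fst g

/-- sign of a slot assignment. -/
noncomputable def sgg {m d : ℕ} (g : Fin (m + 2) → Fin 3)
    (j : Fin (m + 2) → (Fin 3 × Fin d) ⊕ Fin (m + 2)) : ℝ :=
  c0 (gr g (j 0)) * ∏ i : Fin (m + 1), c1 (gr g (j i.succ))

theorem abs_sgg {m d : ℕ} (g : Fin (m + 2) → Fin 3)
    (j : Fin (m + 2) → (Fin 3 × Fin d) ⊕ Fin (m + 2)) : |sgg g j| ≤ 1 := by
  unfold sgg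
  rw [abs_mul, abs_prod]
  have h1 : ∏ i : Fin (m + 1), |c1 (gr g (j i.succ))| ≤ 1 :=
    prod_le_one (fun i _ => abs_nonneg _) (fun i _ => abs_c1 _)
  have h2 := abs_c0 (gr g (j 0))
  have h3 : 0 ≤ ∏ i : Fin (m + 1), |c1 (gr g (j i.succ))| := prod_nonneg fun i _ => abs_nonneg _
  calc |c0 (gr g (j 0))| * ∏ i : Fin (m + 1), |c1 (gr g (j i.succ))| ≤ 1 * 1 :=
        mul_le_mul h2 h1 h3 (by norm_num)
    _ = 1 := one_mul 1

/-- prescribed part of group `Y`. -/
noncomputable def MU {K Ι : Type} [Field K] {n : ℕ} (pol : Ι → K[X]) (t : Fin n → K ⊕ Ι)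
    (g : Fin n → Fin 3) (U : Finset (Fin n)) (Y : Fin 3) : K[X] :=
  ∏ i ∈ U.filter (fun i => g i = Y), pl pol (t i)

/-- The statement. -/
def FTG (m E d : ℕ) : Prop :=
  ∃ q0 : ℕ, ∀ (K : Type) [Field K] [Fintype K] [DecidableEq K], q0 ≤ Fintype.card K →
    ∀ (Ι : Type) [Fintype Ι] [DecidableEq Ι] (pol : Ι → K[X]),
      (∀ i, (pol i).Monic) → (∀ i, (pol i).natDegree ≤ E) →
      (∀ s s' : K ⊕ Ι, s ≠ s' → IsCoprime (pl pol s) (pl pol s')) →
    ∀ Φ : (Fin (m + 2) → K ⊕ Ι) → ℝ,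
      (∀ (t : Fin (m + 2) → K ⊕ Ι) (i : Fin (m + 2)),
        ∑ x : K, Φ (Function.update t i (Sum.inl x)) = 0) →
      (∀ (σ : Equiv.Perm (Fin (m + 2))) (t : Fin (m + 2) → K ⊕ Ι), σ 0 = 0 → Φ (t ∘ σ) = Φ t) →
      (∀ (g : Fin (m + 2) → Fin 3) (t : Fin (m + 2) → K ⊕ Ι) (U : Finset (Fin (m + 2)))
        (L : Finset (Fin 3 × Fin d)) (z : Fin 3 × Fin d → K),
        (∀ Y, (∑ i ∈ U.filter (fun i => g i = Y), (pl pol (t i)).natDegree) + (sl L Y).card = d) →
        (∃ l : Fin 3 → Kˣ, ∑ Y : Fin 3, C (l Y : K) *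
          (MU pol t g U Y * ∏ i ∈ sl L Y, (X - C (z (Y, i)))) = 0) →
        ∑ j : Fin (m + 2) → (Fin 3 × Fin d) ⊕ Fin (m + 2),
          (if ∀ i, j i ∈ L.disjSum U then sgg g j * Φ (vl z t ∘ j) else 0) = 0) →
      ∀ t, Φ t = 0

theorem pl_monic {K Ι : Type} [Field K] {pol : Ι → K[X]} (hmon : ∀ i, (pol i).Monic)
    (s : K ⊕ Ι) : (pl pol s).Monic := by
  rcases s with a | i
  · exact monic_X_sub_C a
  · exact hmon i

theorem pl_natDegree_le {K Ι : Type} [Field K] {pol : Ι → K[X]} {E : ℕ} (hE : 1 ≤ E)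
    (h : ∀ i, (pol i).natDegree ≤ E) (s : K ⊕ Ι) : (pl pol s).natDegree ≤ E := by
  rcases s with a | i
  · change (X - C a).natDegree ≤ E
    rw [natDegree_X_sub_C]; exact hE
  · exact h i

theorem MU_monic {K Ι : Type} [Field K] {n : ℕ} {pol : Ι → K[X]} (hmon : ∀ i, (pol i).Monic)
    (t : Fin n → K ⊕ Ι) (g : Fin n → Fin 3) (U : Finset (Fin n)) (Y : Fin 3) :
    (MU pol t g U Y).Monic :=
  monic_prod_of_monic _ _ (fun i _ => pl_monic hmon _)

theorem MU_natDegree {K Ι : Type} [Field K] {n : ℕ} {pol : Ι → K[X]} (hmon : ∀ i, (pol i).Monic)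
    (t : Fin n → K ⊕ Ι) (g : Fin n → Fin 3) (U : Finset (Fin n)) (Y : Fin 3) :
    (MU pol t g U Y).natDegree = ∑ i ∈ U.filter (fun i => g i = Y), (pl pol (t i)).natDegree :=
  natDegree_prod_of_monic _ _ (fun i _ => pl_monic hmon _)

theorem isCoprime_X_sub_C_of_eval {K : Type} [Field K] (P : K[X]) (a : K) (h : P.eval a ≠ 0) :
    IsCoprime P (X - C a) := by
  apply IsCoprime.symm
  rw [(irreducible_X_sub_C a).coprime_iff_not_dvd, dvd_iff_isRoot]
  exact h

/-- blocks -/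
theorem exists_blocks {n d E : ℕ} (hd : n * E ≤ d) (g : Fin n → Fin 3) (e : Fin n → ℕ)
    (he : ∀ i, e i ≤ E) : ∃ B : Fin n → Finset (Fin 3 × Fin d),
      (∀ i, ∀ p ∈ B i, p.1 = g i) ∧ (∀ i, (B i).card = e i) ∧
      (∀ i i', i ≠ i' → Disjoint (B i) (B i')) := by
  classical
  have hlt : ∀ (i : Fin n) (r : Fin (e i)), (i : ℕ) * E + r < d := by
    intro i r
    have h1 := he i
    have h2 := r.2
    have h3 : ((i : ℕ) + 1) * E ≤ n * E := Nat.mul_le_mul_right _ i.2
    have h4 : ((i : ℕ) + 1) * E = i * E + E := by ring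
    omega
  set f : ∀ i : Fin n, Fin (e i) → Fin 3 × Fin d :=
    fun i r => (g i, ⟨(i : ℕ) * E + (r : ℕ), hlt i r⟩) with hf
  refine ⟨fun i => (univ : Finset (Fin (e i))).image (f i), ?_, ?_, ?_⟩
  · intro i p hp
    obtain ⟨r, -, rfl⟩ := mem_image.1 hp
    rfl
  · intro i
    rw [card_image_of_injective, card_univ, Fintype.card_fin]
    intro r r' h
    simp only [hf, Prod.mk.injEq, Fin.mk.injEq, true_and] at h
    apply Fin.ext
    omega
  · intro i i' hii
    rw [Finset.disjoint_left]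
    intro p hp hp'
    obtain ⟨r, -, rfl⟩ := mem_image.1 hp
    obtain ⟨r', -, h⟩ := mem_image.1 hp'
    apply hii
    simp only [hf, Prod.mk.injEq, Fin.mk.injEq] at h
    have h1 := he i
    have h1' := he i'
    have h2 := r.2
    have h2' := r'.2
    have h3 := h.2
    apply Fin.ext
    rcases lt_trichotomy (i : ℕ) (i' : ℕ) with hl | hl | hl
    · have : ((i : ℕ) + 1) * E ≤ i' * E := Nat.mul_le_mul_right _ hl
      have h4 : ((i : ℕ) + 1) * E = i * E + E := by ring
      omega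
    · exact hl
    · have : ((i' : ℕ) + 1) * E ≤ i * E := Nat.mul_le_mul_right _ hl
      have h4 : ((i' : ℕ) + 1) * E = i' * E + E := by ring
      omega

/-- live positions -/
def live {n d : ℕ} (B : Fin n → Finset (Fin 3 × Fin d)) (U : Finset (Fin n)) :
    Finset (Fin 3 × Fin d) := univ \ U.biUnion B

theorem live_card {n d : ℕ} (B : Fin n → Finset (Fin 3 × Fin d)) (g : Fin n → Fin 3) (e : Fin n → ℕ)
    (h1 : ∀ i, ∀ p ∈ B i, p.1 = g i) (h2 : ∀ i, (B i).card = e i)
    (h3 : ∀ i i', i ≠ i' → Disjoint (B i) (B i')) (U : Finset (Fin n)) (Y : Fin 3) :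
    ∑ i ∈ U.filter (fun i => g i = Y), e i + (sl (live B U) Y).card = d := by
  classical
  rw [sl_card]
  have e1 : ((U.filter (fun i => g i = Y)).biUnion B).card =
      ∑ i ∈ U.filter (fun i => g i = Y), e i := by
    rw [card_biUnion]
    · exact sum_congr rfl (fun i _ => h2 i)
    · intro i _ i' _ hii
      exact h3 i i' hii
  rw [← e1]
  have e2 : (univ.filter (fun p : Fin 3 × Fin d => p.1 = Y)).card = d := by
    have : (univ.filter (fun p : Fin 3 × Fin d => p.1 = Y)).card = (univ : Finset (Fin d)).card := by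
      symm
      apply Finset.card_bij (fun i _ => (Y, i))
      · intro i _; simp
      · intro i _ j _ h; simpa using h
      · intro b hb
        simp only [mem_filter, mem_univ, true_and] at hb
        exact ⟨b.2, mem_univ _, by rw [← hb]⟩
    rw [this, card_univ, Fintype.card_fin]
  conv_rhs => rw [← e2]
  rw [← card_union_of_disjoint]
  · congr 1
    ext p
    simp only [mem_union, mem_biUnion, mem_filter, live, mem_sdiff, mem_univ, true_and]
    constructor
    · rintro (⟨i, ⟨_, hi⟩, hp⟩ | ⟨_, hp⟩)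
      · rw [h1 i p hp]; exact hi
      · exact hp
    · intro hp
      by_cases h : ∃ i ∈ U, p ∈ B i
      · obtain ⟨i, hi, hpi⟩ := h
        left
        exact ⟨i, ⟨hi, by rw [← h1 i p hpi]; exact hp⟩, hpi⟩
      · right
        exact ⟨h, hp⟩
  · rw [Finset.disjoint_left]
    intro p hp hp'
    simp only [mem_biUnion, mem_filter, live, mem_sdiff, mem_univ, true_and] at hp hp'
    obtain ⟨i, ⟨hi, _⟩, hpi⟩ := hp
    exact hp'.1 ⟨i, hi, hpi⟩

/-- cancellation when the block `i0` is not touched -/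
theorem alt_cancel {n : ℕ} (P : Finset (Fin n) → Prop) [DecidablePred P] (i0 : Fin n)
    (h : ∀ U, i0 ∉ U → (P (insert i0 U) ↔ P U)) :
    ∑ U : Finset (Fin n), (-1 : ℝ) ^ U.card * (if P U then 1 else 0) = 0 := by
  classical
  apply Finset.sum_ninvolution (fun U => if i0 ∈ U then U.erase i0 else insert i0 U)
  · intro U
    by_cases hU : i0 ∈ U
    · simp only [hU, if_true]
      have h1 := h (U.erase i0) (notMem_erase _ _)
      rw [insert_erase hU] at h1
      simp only [h1]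
      rw [← card_erase_add_one hU, pow_succ]
      ring
    · simp only [hU, if_false, h U hU]
      rw [card_insert_of_notMem hU, pow_succ]
      ring
  · intro U hU h2
    by_cases hU : i0 ∈ U
    · simp only [hU, if_true] at h2
      exact (notMem_erase i0 U) (by rw [h2]; exact hU)
    · simp only [hU, if_false] at h2
      exact hU (by rw [← h2]; exact mem_insert_self _ _)
  · intro U; exact mem_univ _
  · intro U
    by_cases hU : i0 ∈ U
    · simp [hU]
    · simp [hU]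

end Pool.Agent.Run7.h406.G
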