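import Pool.Agent.Run7.h406.G.FT

/-!
# The finite field theorem with additional symbols: proof
-/

namespace Pool.Agent.Run7.h406.G

open H39Gon H39Gon.A2 Polynomial Finset

section combi

variable {n d : ℕ} {B : Fin n → Finset (Fin 3 × Fin d)}

theorem not_touched (j : Fin n → (Fin 3 × Fin d) ⊕ Fin n) (i0 : Fin n)
    (h : ∀ i, j i ≠ Sum.inr i0 ∧ ∀ p ∈ B i0, j i ≠ Sum.inl p) :
    ∑ U : Finset (Fin n), (-1 : ℝ) ^ U.card *
      (if ∀ i, j i ∈ (live B U).disjSum U then (1 : ℝ) else 0) = 0 := by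
  classical
  apply alt_cancel (fun U => ∀ i, j i ∈ (live B U).disjSum U) i0
  intro U hU
  refine forall_congr' fun i => ?_
  obtain ⟨h1, h2⟩ := h i
  rcases hji : j i with p | i'
  · rw [inl_mem_disjSum, inl_mem_disjSum]
    have hp : p ∉ B i0 := fun hp => h2 p hp hji
    simp only [live, mem_sdiff, mem_univ, true_and, mem_biUnion, mem_insert]
    constructor
    · rintro h3 ⟨a, ha, hpa⟩
      exact h3 ⟨a, Or.inr ha, hpa⟩
    · rintro h3 ⟨a, ha | ha, hpa⟩
      · subst ha; exact hp hpa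
      · exact h3 ⟨a, ha, hpa⟩
  · rw [inr_mem_disjSum, inr_mem_disjSum, mem_insert]
    have : i' ≠ i0 := by
      rintro rfl
      exact h1 hji
    simp [this]

theorem touched (hB : ∀ i i', i ≠ i' → Disjoint (B i) (B i'))
    (j : Fin n → (Fin 3 × Fin d) ⊕ Fin n)
    (h : ∀ i0, ∃ i, j i = Sum.inr i0 ∨ ∃ p ∈ B i0, j i = Sum.inl p) :
    (∃ σ : Equiv.Perm (Fin n), j = fun i => Sum.inr (σ i)) ∨
      ∃ i1 p, j i1 = Sum.inl p ∧ ∀ i, i ≠ i1 → j i ≠ Sum.inl p := by
  classical
  choose τ hτ using h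
  have hinj : Function.Injective τ := by
    intro a b hab
    by_contra hne
    have ha := hτ a
    have hb := hτ b
    rw [← hab] at hb
    rcases ha with ha | ⟨p, hp, ha⟩
    · rcases hb with hb | ⟨p', hp', hb⟩
      · rw [ha] at hb
        exact hne (Sum.inr_injective hb)
      · rw [ha] at hb
        exact absurd hb (by simp)
    · rcases hb with hb | ⟨p', hp', hb⟩
      · rw [ha] at hb
        exact absurd hb (by simp)
      · rw [ha] at hb
        have := Sum.inl_injective hb
        subst this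
        exact Finset.disjoint_left.1 (hB a b hne) hp hp'
  have hbij : Function.Bijective τ := Finite.injective_iff_bijective.1 hinj
  set e := Equiv.ofBijective τ hbij with he
  by_cases hall : ∀ i0, j (τ i0) = Sum.inr i0
  · left
    refine ⟨e.symm, ?_⟩
    funext i
    have h1 := hall (e.symm i)
    have h2 : τ (e.symm i) = i := e.apply_symm_apply i
    rw [h2] at h1
    exact h1
  · right
    push Not at hall
    obtain ⟨i0, hi0⟩ := hall
    obtain ⟨p, hp, hjp⟩ := (hτ i0).resolve_left hi0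
    refine ⟨τ i0, p, hjp, ?_⟩
    intro i hi hji
    obtain ⟨i2, rfl⟩ := hbij.2 i
    have hne : i2 ≠ i0 := fun h => hi (by rw [h])
    rcases hτ i2 with h2 | ⟨p', hp', h2⟩
    · rw [hji] at h2
      exact absurd h2 (by simp)
    · rw [hji] at h2
      have := Sum.inl_injective h2
      subst this
      exact Finset.disjoint_left.1 (hB i2 i0 hne) hp' hp

theorem balance_zero {K Ι : Type} [Fintype K] [DecidableEq K] [Nonempty K] {n' : ℕ}
    (Φ : (Fin n → K ⊕ Ι) → ℝ)
    (hbal : ∀ (t : Fin n → K ⊕ Ι) (i : Fin n), ∑ x : K, Φ (Function.update t i (Sum.inl x)) = 0)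
    (t : Fin n' → K ⊕ Ι) (j : Fin n → (Fin 3 × Fin d) ⊕ Fin n') (i1 : Fin n) (p : Fin 3 × Fin d)
    (h1 : j i1 = Sum.inl p) (h2 : ∀ i, i ≠ i1 → j i ≠ Sum.inl p) :
    ∑ z : Fin 3 × Fin d → K, Φ (vl z t ∘ j) = 0 := by
  have hq : (0 : ℝ) < Fintype.card K := by exact_mod_cast (Fintype.card_pos : 0 < Fintype.card K)
  have h := sum_update p (fun z : Fin 3 × Fin d → K => Φ (vl z t ∘ j))
  have h3 : ∀ (z : Fin 3 × Fin d → K) (x : K), vl (Function.update z p x) t ∘ j =
      Function.update (vl z t ∘ j) i1 (Sum.inl x) := by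
    intro z x
    funext i
    by_cases hi : i = i1
    · subst hi
      simp [h1, vl]
    · rw [Function.update_of_ne hi]
      simp only [Function.comp]
      rcases hji : j i with p' | i'
      · have : p' ≠ p := by
          rintro rfl
          exact h2 i hi hji
        simp [vl, Function.update_of_ne this]
      · simp [vl]
  simp only [h3, hbal, sum_const_zero] at h
  rcases mul_eq_zero.1 h.symm with h | h
  · exact absurd h hq.ne'
  · exact h

end combi

theorem sl_sdiff_card {d : ℕ} (L T : Finset (Fin 3 × Fin d)) (hT : T ⊆ L) (Y : Fin 3) :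
    (T.filter (fun a => a.1 = Y)).card + (sl (L \ T) Y).card = (sl L Y).card := by
  classical
  rw [sl_card, sl_card, ← card_union_of_disjoint]
  · congr 1
    ext p
    simp only [mem_union, mem_filter, mem_sdiff]
    constructor
    · rintro (⟨h1, h2⟩ | ⟨⟨h1, _⟩, h2⟩)
      · exact ⟨hT h1, h2⟩
      · exact ⟨h1, h2⟩
    · rintro ⟨h1, h2⟩
      by_cases h : p ∈ T
      · exact Or.inl ⟨h, h2⟩
      · exact Or.inr ⟨⟨h1, h⟩, h2⟩
  · rw [Finset.disjoint_left]
    intro p hp hp'
    simp only [mem_filter, mem_sdiff] at hp hp'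
    exact hp'.1.2 hp.1

theorem A_bound {K : Type} [Field K] [Fintype K] [DecidableEq K] {Ι : Type} {n d E N : ℕ}
    (hN : 3 * N ≤ d) (hnE : n * E + n ≤ N) (hE : 1 ≤ E)
    (pol : Ι → K[X]) (hmon : ∀ i, (pol i).Monic) (hdeg : ∀ i, (pol i).natDegree ≤ E)
    (hcop : ∀ s s' : K ⊕ Ι, s ≠ s' → IsCoprime (pl pol s) (pl pol s'))
    (t : Fin n → K ⊕ Ι) (g : Fin n → Fin 3) (hg : ∀ i i', g i ≠ g i' → t i ≠ t i')
    (B : Fin n → Finset (Fin 3 × Fin d)) (hB1 : ∀ i, ∀ p ∈ B i, p.1 = g i)
    (hB2 : ∀ i, (B i).card = (pl pol (t i)).natDegree)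
    (hB3 : ∀ i i', i ≠ i' → Disjoint (B i) (B i')) (U : Finset (Fin n))
    (T : Finset (Fin 3 × Fin d)) (hTL : T ⊆ live B U) (hTc : T.card ≤ n)
    (z : Fin 3 × Fin d → K) (hz : ∀ a ∈ T, ∀ b ∈ T, a.1 ≠ b.1 → z a ≠ z b)
    (hz2 : ∀ a ∈ T, ∀ i ∈ U, g i ≠ a.1 → (pl pol (t i)).eval (z a) ≠ 0) :
    |A T (WM (MU pol t g U) (sl (live B U))) z - wbar (Fintype.card K) d| ≤
      Er d N (Fintype.card K) * wbar (Fintype.card K) d := by
  classical
  have hNQ : NQ (Fin 3 × Fin d) K = (Fintype.card K : ℝ) ^ (3 * d) := by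
    unfold NQ
    simp
  unfold A
  rw [hNQ]
  simp only [WM_piecewise (MU pol t g U) (live B U) T hTL z]
  have hdd : ∀ Y, (MU pol t g U Y * MT (T.filter (fun a => a.1 = Y)) z).natDegree =
      (∑ i ∈ U.filter (fun i => g i = Y), (pl pol (t i)).natDegree) +
        (T.filter (fun a => a.1 = Y)).card := by
    intro Y
    rw [(MU_monic hmon t g U Y).natDegree_mul (MT_monic _ _), MU_natDegree hmon, MT_natDegree]
  apply count_gen hN
  · intro Y
    exact (MU_monic hmon t g U Y).mul (MT_monic _ _)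
  · intro X Y hXY
    have c1 : IsCoprime (MU pol t g U X) (MU pol t g U Y) := by
      unfold MU
      apply IsCoprime.prod_left; intro i hi
      apply IsCoprime.prod_right; intro i' hi'
      rw [mem_filter] at hi hi'
      apply hcop
      apply hg
      rw [hi.2, hi'.2]
      exact hXY
    have c2 : ∀ X Y : Fin 3, X ≠ Y →
        IsCoprime (MU pol t g U X) (MT (T.filter (fun a => a.1 = Y)) z) := by
      intro X Y hXY
      unfold MU MT
      apply IsCoprime.prod_left; intro i hi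
      apply IsCoprime.prod_right; intro b hb
      rw [mem_filter] at hi hb
      apply isCoprime_X_sub_C_of_eval
      apply hz2 b hb.1 i hi.1
      rw [hi.2, hb.2]
      exact hXY
    have c3 : IsCoprime (MT (T.filter (fun a => a.1 = X)) z) (MT (T.filter (fun a => a.1 = Y)) z) := by
      apply MT_coprime
      intro a ha b hb
      rw [mem_filter] at ha hb
      apply hz a ha.1 b hb.1
      rw [ha.2, hb.2]
      exact hXY
    exact IsCoprime.mul_left (IsCoprime.mul_right c1 (c2 X Y hXY))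
      (IsCoprime.mul_right (c2 Y X hXY.symm).symm c3)
  · intro Y
    rw [hdd, add_assoc, sl_sdiff_card _ _ hTL]
    exact live_card B g _ hB1 hB2 hB3 U Y
  · rw [hdd, hdd, hdd]
    have e1 : ∑ Y : Fin 3, ∑ i ∈ U.filter (fun i => g i = Y), (pl pol (t i)).natDegree =
        ∑ i ∈ U, (pl pol (t i)).natDegree := Finset.sum_fiberwise _ _ _
    have e2 : ∑ Y : Fin 3, (T.filter (fun a => a.1 = Y)).card = T.card :=
      (Finset.card_eq_sum_card_fiberwise (fun _ _ => mem_univ _)).symm
    have e3 : ∑ i ∈ U, (pl pol (t i)).natDegree ≤ n * E := by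
      calc ∑ i ∈ U, (pl pol (t i)).natDegree ≤ ∑ i ∈ U, E :=
            sum_le_sum (fun i _ => pl_natDegree_le hE hdeg _)
        _ = U.card * E := by rw [sum_const, smul_eq_mul]
        _ ≤ n * E := Nat.mul_le_mul_right _ (by simpa using card_le_univ U)
    rw [Fin.sum_univ_three] at e1 e2
    omega

end Pool.Agent.Run7.h406.G
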