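import Pool.Agent.Run7.h406.G.FT2

/-!
# The finite field theorem with additional symbols: end of the proof
-/

namespace Pool.Agent.Run7.h406.G

open H39Gon H39Gon.A2 Polynomial Finset

theorem sgg_perm {K Ι : Type} {m d : ℕ} (t : Fin (m + 2) → K ⊕ Ι) (g : Fin (m + 2) → Fin 3)
    (hd : m + 2 ≤ d)
    (hg : ∀ i, g i = (kk (d := d) hd t i).1)
    (Φ : (Fin (m + 2) → K ⊕ Ι) → ℝ)
    (hsym : ∀ (σ : Equiv.Perm (Fin (m + 2))) (t : Fin (m + 2) → K ⊕ Ι), σ 0 = 0 → Φ (t ∘ σ) = Φ t)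
    (σ : Equiv.Perm (Fin (m + 2))) [Decidable (t (σ 0) = t 0)] :
    sgg (d := d) g (fun i => Sum.inr (σ i)) * Φ (t ∘ σ) =
      if t (σ 0) = t 0 then (∏ i, c1 (g i)) * Φ t else 0 := by
  have h1 : sgg (d := d) g (fun i => Sum.inr (σ i)) = sg (kk (d := d) hd t ∘ σ) := by
    unfold sgg sg
    simp only [gr, Sum.elim_inr, Function.comp, hg]
  rw [h1]
  split_ifs with h
  · rw [sg_kk hd t Φ hsym σ h]
    simp only [hg]
  · have : sg (kk (d := d) hd t ∘ σ) = 0 := by
      unfold sg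
      simp only [Function.comp]
      rw [c0_kk' hd t (σ 0) h, zero_mul]
    rw [this, zero_mul]

theorem FTG_all (m E : ℕ) (hE : 1 ≤ E) : FTG m E (3 * ((m + 2) * E + (m + 2))) := by
  classical
  obtain ⟨N, hNdef⟩ : ∃ N, N = (m + 2) * E + (m + 2) := ⟨_, rfl⟩
  rw [← hNdef]
  obtain ⟨d, hddef⟩ : ∃ d, d = 3 * N := ⟨_, rfl⟩
  rw [← hddef]
  have hmd : m + 2 ≤ d := by omega
  set C0 : ℝ := (3 * d + (m + 2) : ℝ) ^ (m + 2) * 2 ^ (m + 2) with hC0
  have hC0pos : 0 < C0 := by positivity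
  obtain ⟨q1, hq1⟩ := Er_small d N (1 / (12 * C0)) (by positivity)
  obtain ⟨q2, hq2⟩ := exists_nat_gt (8 * C0 * ((m + 2 : ℝ) ^ 2 + (m + 2) * ((m + 2) * E)))
  refine ⟨max q1 q2, ?_⟩
  intro K _ _ _ hK Ι _ _ pol hmon hdeg hcop Φ hbal hsym hrel
  by_contra hcon
  push Not at hcon
  obtain ⟨t0, ht0⟩ := hcon
  obtain ⟨t, htmax⟩ := Finite.exists_max (fun t => |Φ t|)
  have hM0 : 0 < |Φ t| := lt_of_lt_of_le (abs_pos.2 ht0) (htmax t0)
  have hq : (1 : ℝ) < Fintype.card K := by exact_mod_cast Fintype.one_lt_card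
  have hq0 : (0 : ℝ) < Fintype.card K := by linarith
  have hw : 0 < wbar (Fintype.card K) d := by
    unfold wbar
    have : (0 : ℝ) < (Fintype.card K : ℝ) - 1 := by linarith
    positivity
  set w := wbar (Fintype.card K) d with hwdef
  set ε : ℝ := 1 / (12 * C0) with hε
  have hεpos : 0 < ε := by positivity
  set δ : ℝ := ((m + 2 : ℝ) ^ 2 + (m + 2) * ((m + 2) * E)) / Fintype.card K with hδ
  have hδ0 : 0 ≤ δ := by positivity
  have hNQpos : 0 < NQ (Fin 3 × Fin d) K := NQ_pos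
  have hEr : Er d N (Fintype.card K) ≤ ε := hq1 _ (le_trans (le_max_left _ _) hK)
  -- groups and blocks
  obtain ⟨g, hgdef⟩ : ∃ g : Fin (m + 2) → Fin 3, ∀ i, g i = (kk (d := d) hmd t i).1 :=
    ⟨fun i => (kk (d := d) hmd t i).1, fun _ => rfl⟩
  have hg : ∀ i i', g i ≠ g i' → t i ≠ t i' := by
    intro i i' h1 h2
    apply h1
    rw [hgdef, hgdef]
    simp only [kk, h2]
    congr
  obtain ⟨B, hB1, hB2, hB3⟩ := exists_blocks (n := m + 2) (d := d) (E := E) (by rw [hddef, hNdef]; nlinarith) g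
    (fun i => (pl pol (t i)).natDegree) (fun i => pl_natDegree_le hE hdeg _)
  -- weights
  obtain ⟨W, hWdef⟩ : ∃ W : Finset (Fin (m + 2)) → (Fin 3 × Fin d → K) → ℝ,
      ∀ U, W U = WM (MU pol t g U) (sl (live B U)) := ⟨fun U => _, fun U => rfl⟩
  have hW0 : ∀ U z, 0 ≤ W U z := by
    intro U z
    rw [hWdef]
    unfold WM
    positivity
  obtain ⟨ok, hok⟩ : ∃ ok : Finset (Fin (m + 2)) → (Fin (m + 2) → (Fin 3 × Fin d) ⊕ Fin (m + 2)) → Prop,
      ∀ U j, ok U j ↔ ∀ i, j i ∈ (live B U).disjSum U := ⟨fun U j => _, fun _ _ => Iff.rfl⟩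
  -- the total relation
  have hR : ∀ U z, W U z * ∑ j : Fin (m + 2) → (Fin 3 × Fin d) ⊕ Fin (m + 2),
      (if ok U j then sgg g j * Φ (vl z t ∘ j) else 0) = 0 := by
    intro U z
    by_cases h0 : W U z = 0
    · rw [h0, zero_mul]
    · have hne : Nonempty {l : Fin 3 → Kˣ //
          ∑ Y : Fin 3, C (l Y : K) * (MU pol t g U Y * ∏ i ∈ sl (live B U) Y,
            (Polynomial.X - C (z (Y, i)))) = 0} := by
        by_contra hcon
        rw [not_nonempty_iff] at hcon
        apply h0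
        rw [hWdef]
        unfold WM
        rw [Nat.card_of_isEmpty]
        simp
      obtain ⟨l, hl⟩ := hne
      have := hrel g t U (live B U) z (live_card B g _ hB1 hB2 hB3 U) ⟨l, hl⟩
      simp only [hok]
      rw [this, mul_zero]
  -- the coefficient of `j`
  obtain ⟨co, hco⟩ : ∃ co : (Fin (m + 2) → (Fin 3 × Fin d) ⊕ Fin (m + 2)) → ℝ,
      ∀ j, co j = ∑ U : Finset (Fin (m + 2)), (-1 : ℝ) ^ U.card * (if ok U j then 1 else 0) :=
    ⟨fun j => _, fun _ => rfl⟩
  obtain ⟨er, her⟩ : ∃ er : (Fin (m + 2) → (Fin 3 × Fin d) ⊕ Fin (m + 2)) → ℝ,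
      ∀ j, er j = ∑ U : Finset (Fin (m + 2)), (-1 : ℝ) ^ U.card * ((if ok U j then 1 else 0) *
        ∑ z : Fin 3 × Fin d → K, (W U z - w) * Φ (vl z t ∘ j)) := ⟨fun j => _, fun _ => rfl⟩
  have hsum : ∑ j : Fin (m + 2) → (Fin 3 × Fin d) ⊕ Fin (m + 2), sgg g j *
      (er j + w * (co j * ∑ z : Fin 3 × Fin d → K, Φ (vl z t ∘ j))) = 0 := by
    have h1 : ∀ j : Fin (m + 2) → (Fin 3 × Fin d) ⊕ Fin (m + 2), sgg g j *
      (er j + w * (co j * ∑ z : Fin 3 × Fin d → K, Φ (vl z t ∘ j)))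
      = ∑ U : Finset (Fin (m + 2)), ∑ z : Fin 3 × Fin d → K, (-1 : ℝ) ^ U.card *
        (W U z * (if ok U j then sgg g j * Φ (vl z t ∘ j) else 0)) := by
      intro j
      rw [her, hco, sum_mul, mul_sum, ← sum_add_distrib, mul_sum]
      refine sum_congr rfl fun U _ => ?_
      split_ifs with h
      · rw [mul_one, one_mul, mul_sum, mul_sum, mul_sum, ← sum_add_distrib, mul_sum]
        refine sum_congr rfl fun z _ => ?_
        ring
      · simp
    rw [sum_congr rfl fun j _ => h1 j, sum_comm]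
    refine sum_eq_zero fun U _ => ?_
    rw [sum_comm]
    refine sum_eq_zero fun z _ => ?_
    rw [← mul_sum, ← mul_sum, hR, mul_zero]
  -- error terms
  set Bd : ℝ := 2 ^ (m + 2) * (|Φ t| * (((3 * ε + 2 * δ) * w) * NQ (Fin 3 × Fin d) K)) with hBd
  have hD1 : ∀ (U : Finset (Fin (m + 2))) (j : Fin (m + 2) → (Fin 3 × Fin d) ⊕ Fin (m + 2)),
      ok U j → |∑ z : Fin 3 × Fin d → K, (W U z - w) * Φ (vl z t ∘ j)| ≤
        |Φ t| * (((3 * ε + 2 * δ) * w) * NQ (Fin 3 × Fin d) K) := by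
    intro U j hUj
    rw [hok] at hUj
    set T : Finset (Fin 3 × Fin d) := (univ.image j).toLeft with hT
    have hTm : ∀ p, p ∈ T ↔ ∃ i, j i = Sum.inl p := by
      intro p
      rw [hT, mem_toLeft, mem_image]
      simp
    have hTc : T.card ≤ m + 2 := by
      refine card_toLeft_le.trans (card_image_le.trans ?_)
      simp
    have hTL : T ⊆ live B U := by
      intro p hp
      obtain ⟨i, hi⟩ := (hTm p).1 hp
      have := hUj i
      rw [hi, inl_mem_disjSum] at this
      exact this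
    have hUc : (U.card : ℝ) ≤ m + 2 := by
      have : U.card ≤ m + 2 := by simpa using card_le_univ U
      exact_mod_cast this
    have hTc' : (T.card : ℝ) ≤ m + 2 := by exact_mod_cast hTc
    have hAb : ∀ z : Fin 3 × Fin d → K, ∀ T' : Finset (Fin 3 × Fin d), T' ⊆ live B U → T'.card ≤ m + 2 →
        (∀ a ∈ T', ∀ b ∈ T', a.1 ≠ b.1 → z a ≠ z b) →
        (∀ a ∈ T', ∀ i ∈ U, g i ≠ a.1 → (pl pol (t i)).eval (z a) ≠ 0) →
        |A T' (W U) z - w| ≤ ε * w := by
      intro z T' h1 h2 h3 h4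
      rw [hWdef]
      refine (A_bound (n := m + 2) (E := E) (N := N) hddef.ge (by rw [hNdef]) hE pol hmon hdeg
        hcop t g hg B hB1 hB2 hB3 U T' h1 h2 z h3 h4).trans ?_
      exact mul_le_mul_of_nonneg_right hEr hw.le
    apply err_F (W U) w _ T ?_ (fun z => Φ (vl z t ∘ j)) ?_ _ (abs_nonneg _) (fun z => htmax _)
    · apply tv_gen (W U) (hW0 U) w ε δ hw.le (by positivity) T
        (fun z => (∀ a ∈ T, ∀ b ∈ T, a.1 ≠ b.1 → z a ≠ z b) ∧
          (∀ a ∈ T, ∀ i ∈ U, g i ≠ a.1 → (pl pol (t i)).eval (z a) ≠ 0))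
      · have h1 := hAb (fun _ => 0) ∅ (empty_subset _) (by simp) (by simp) (by simp)
        unfold A at h1
        simpa using h1
      · intro z hz
        exact hAb z T hTL hTc hz.1 hz.2
      · have h1 := prob_bad_gen (K := K) (fun a : Fin 3 × Fin d => a.1) T U g (fun i => pl pol (t i))
          (fun i _ => (pl_monic hmon _).ne_zero) E (fun i _ => pl_natDegree_le hE hdeg _)
        refine le_trans (le_of_eq (sum_congr rfl fun z _ => by congr)) (h1.trans ?_)
        refine mul_le_mul_of_nonneg_right ?_ hNQpos.le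
        rw [hδ]
        have : (T.card : ℝ) ^ 2 + T.card * (U.card * E) ≤
            (m + 2 : ℝ) ^ 2 + (m + 2) * ((m + 2) * E) := by gcongr
        exact div_le_div_of_nonneg_right this hq0.le
    · intro z z'
      congr 1
      funext i
      simp only [Function.comp]
      rcases hji : j i with p | i'
      · have : p ∈ T := (hTm p).2 ⟨i, hji⟩
        simp [vl, this]
      · simp [vl]
  have hD : ∀ j, |er j| ≤ Bd := by
    intro j
    rw [her]
    have hC : 0 ≤ |Φ t| * (((3 * ε + 2 * δ) * w) * NQ (Fin 3 × Fin d) K) := by positivity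
    calc |∑ U : Finset (Fin (m + 2)), (-1 : ℝ) ^ U.card * ((if ok U j then 1 else 0) *
        ∑ z : Fin 3 × Fin d → K, (W U z - w) * Φ (vl z t ∘ j))|
        ≤ ∑ U : Finset (Fin (m + 2)), |(-1 : ℝ) ^ U.card * ((if ok U j then 1 else 0) *
        ∑ z : Fin 3 × Fin d → K, (W U z - w) * Φ (vl z t ∘ j))| := abs_sum_le_sum_abs _ _
      _ ≤ ∑ U : Finset (Fin (m + 2)),
          |Φ t| * (((3 * ε + 2 * δ) * w) * NQ (Fin 3 × Fin d) K) := by
          refine sum_le_sum fun U _ => ?_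
          rw [abs_mul, abs_pow, abs_neg, abs_one, one_pow, one_mul]
          split_ifs with h
          · rw [one_mul]
            exact hD1 U j h
          · rw [zero_mul, abs_zero]
            exact hC
      _ = Bd := by
          rw [sum_const, card_univ, nsmul_eq_mul, Fintype.card_finset, Fintype.card_fin]
          push_cast
          rfl
  -- main terms
  have hE' : ∑ j : Fin (m + 2) → (Fin 3 × Fin d) ⊕ Fin (m + 2), sgg g j *
      (co j * ∑ z : Fin 3 × Fin d → K, Φ (vl z t ∘ j))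
      = (-1) ^ (m + 2) * NQ (Fin 3 × Fin d) K * ((∏ i, c1 (g i)) * Φ t) *
        ((univ.filter fun σ : Equiv.Perm (Fin (m + 2)) => t (σ 0) = t 0).card : ℝ) := by
    have h1 : ∑ j : Fin (m + 2) → (Fin 3 × Fin d) ⊕ Fin (m + 2), sgg g j *
      (co j * ∑ z : Fin 3 × Fin d → K, Φ (vl z t ∘ j))
      = ∑ j ∈ (univ : Finset (Equiv.Perm (Fin (m + 2)))).image
        (fun σ : Equiv.Perm (Fin (m + 2)) => fun i => (Sum.inr (σ i) : (Fin 3 × Fin d) ⊕ Fin (m + 2))),
        sgg g j * (co j * ∑ z : Fin 3 × Fin d → K, Φ (vl z t ∘ j)) := by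
      symm
      refine sum_subset (subset_univ _) fun j _ hj => ?_
      by_cases h : ∃ i0, ∀ i, j i ≠ Sum.inr i0 ∧ ∀ p ∈ B i0, j i ≠ Sum.inl p
      · obtain ⟨i0, hi0⟩ := h
        have := not_touched (B := B) j i0 hi0
        have h2 : co j = 0 := by
          rw [hco]
          refine Eq.trans (sum_congr rfl fun U _ => ?_) this
          simp only [hok]
        rw [h2, zero_mul, mul_zero]
      · have h' : ∀ i0, ∃ i, j i = Sum.inr i0 ∨ ∃ p ∈ B i0, j i = Sum.inl p := by
          intro i0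
          by_contra hc
          apply h
          refine ⟨i0, fun i => ⟨fun h1 => hc ⟨i, Or.inl h1⟩, fun p hp h1 => hc ⟨i, Or.inr ⟨p, hp, h1⟩⟩⟩⟩
        rcases touched hB3 j h' with ⟨σ, hσ⟩ | ⟨i1, p, h1, h2⟩
        · exfalso
          apply hj
          rw [mem_image]
          exact ⟨σ, mem_univ _, hσ.symm⟩
        · rw [balance_zero Φ hbal t j i1 p h1 h2, mul_zero, mul_zero]
    rw [h1, sum_image]
    · have h2 : ∀ σ : Equiv.Perm (Fin (m + 2)),
          sgg g (fun i => (Sum.inr (σ i) : (Fin 3 × Fin d) ⊕ Fin (m + 2))) *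
          (co (fun i => Sum.inr (σ i)) * ∑ z : Fin 3 × Fin d → K,
            Φ (vl z t ∘ fun i => (Sum.inr (σ i) : (Fin 3 × Fin d) ⊕ Fin (m + 2))))
          = if t (σ 0) = t 0 then (-1) ^ (m + 2) * NQ (Fin 3 × Fin d) K *
            ((∏ i, c1 (g i)) * Φ t) else 0 := by
        intro σ
        have e1 : co (fun i => Sum.inr (σ i)) = (-1) ^ (m + 2) := by
          rw [hco, Finset.sum_eq_single (univ : Finset (Fin (m + 2)))]
          · rw [if_pos]
            · simp
            · rw [hok]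
              intro i
              rw [inr_mem_disjSum]
              exact mem_univ _
          · intro U _ hU
            rw [if_neg, mul_zero]
            rw [hok]
            intro h3
            apply hU
            rw [eq_univ_iff_forall]
            intro x
            have := h3 (σ.symm x)
            rw [inr_mem_disjSum] at this
            simpa using this
          · intro h3; exact absurd (mem_univ _) h3
        have e2 : ∀ z : Fin 3 × Fin d → K,
            vl z t ∘ (fun i => (Sum.inr (σ i) : (Fin 3 × Fin d) ⊕ Fin (m + 2))) = t ∘ σ := by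
          intro z
          funext i
          simp [vl]
        have e3 := sgg_perm (d := d) t g hmd hgdef Φ hsym σ
        rw [e1]
        simp only [e2]
        rw [sum_const, card_univ, nsmul_eq_mul, card_fun]
        have e4 : sgg g (fun i => (Sum.inr (σ i) : (Fin 3 × Fin d) ⊕ Fin (m + 2))) *
            ((-1) ^ (m + 2) * (NQ (Fin 3 × Fin d) K * Φ (t ∘ σ))) =
            (-1) ^ (m + 2) * NQ (Fin 3 × Fin d) K *
              (sgg g (fun i => (Sum.inr (σ i) : (Fin 3 × Fin d) ⊕ Fin (m + 2))) * Φ (t ∘ σ)) := by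
          ring
        rw [e4, e3]
        split_ifs
        · rfl
        · simp
      rw [sum_congr rfl fun σ _ => h2 σ, ← sum_filter, sum_const, nsmul_eq_mul]
      ring
    · intro σ _ σ' _ hσ
      ext1 i
      exact Sum.inr_injective (congr_fun hσ i)
  have hcard : (1 : ℝ) ≤
      ((univ.filter fun σ : Equiv.Perm (Fin (m + 2)) => t (σ 0) = t 0).card : ℝ) := by
    have : 0 < (univ.filter fun σ : Equiv.Perm (Fin (m + 2)) => t (σ 0) = t 0).card :=
      card_pos.2 ⟨1, by simp⟩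
    exact_mod_cast this
  have hs1 : |∏ i, c1 (g i)| = 1 := by
    rw [abs_prod]
    refine prod_eq_one fun i _ => ?_
    rw [hgdef]
    exact c1_kk hmd t i
  have hfin : w * ((-1) ^ (m + 2) * NQ (Fin 3 × Fin d) K * ((∏ i, c1 (g i)) * Φ t) *
        ((univ.filter fun σ : Equiv.Perm (Fin (m + 2)) => t (σ 0) = t 0).card : ℝ))
      = - ∑ j : Fin (m + 2) → (Fin 3 × Fin d) ⊕ Fin (m + 2), sgg g j * er j := by
    rw [← hE', eq_neg_iff_add_eq_zero, ← hsum, mul_sum, ← sum_add_distrib]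
    refine sum_congr rfl fun j _ => ?_
    ring
  have h3 : w * (NQ (Fin 3 × Fin d) K * |Φ t|) ≤ (3 * d + (m + 2) : ℝ) ^ (m + 2) * Bd := by
    calc w * (NQ (Fin 3 × Fin d) K * |Φ t|)
        ≤ w * (NQ (Fin 3 × Fin d) K * |Φ t|) *
        ((univ.filter fun σ : Equiv.Perm (Fin (m + 2)) => t (σ 0) = t 0).card : ℝ) :=
          le_mul_of_one_le_right (by positivity) hcard
      _ = |w * ((-1) ^ (m + 2) * NQ (Fin 3 × Fin d) K * ((∏ i, c1 (g i)) * Φ t) *
        ((univ.filter fun σ : Equiv.Perm (Fin (m + 2)) => t (σ 0) = t 0).card : ℝ))| := by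
          rw [abs_mul, abs_mul, abs_mul, abs_mul, abs_mul, hs1, abs_of_pos hw, abs_of_pos hNQpos,
            Nat.abs_cast, abs_pow, abs_neg, abs_one, one_pow]
          ring
      _ = |∑ j : Fin (m + 2) → (Fin 3 × Fin d) ⊕ Fin (m + 2), sgg g j * er j| := by
          rw [hfin, abs_neg]
      _ ≤ ∑ j : Fin (m + 2) → (Fin 3 × Fin d) ⊕ Fin (m + 2), |sgg g j * er j| :=
          abs_sum_le_sum_abs _ _
      _ ≤ ∑ j : Fin (m + 2) → (Fin 3 × Fin d) ⊕ Fin (m + 2), Bd := by
          refine sum_le_sum fun j _ => ?_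
          rw [abs_mul]
          calc |sgg g j| * |er j| ≤ 1 * Bd :=
                mul_le_mul (abs_sgg g j) (hD j) (abs_nonneg _) (by norm_num)
            _ = Bd := one_mul Bd
      _ = (3 * d + (m + 2) : ℝ) ^ (m + 2) * Bd := by
          rw [sum_const, card_univ, nsmul_eq_mul]
          simp
  have h4 : (3 * d + (m + 2) : ℝ) ^ (m + 2) * Bd = (C0 * (3 * ε + 2 * δ)) *
      (w * (NQ (Fin 3 × Fin d) K * |Φ t|)) := by
    rw [hBd, hC0]
    ring
  have h5 : C0 * (3 * ε + 2 * δ) ≤ 1 / 2 := by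
    have h6 : C0 * (3 * ε) = 1 / 4 := by
      rw [hε]
      field_simp
      norm_num
    have h7 : (q2 : ℝ) ≤ Fintype.card K := by exact_mod_cast (le_trans (le_max_right _ _) hK)
    have h8 : C0 * (2 * δ) ≤ 1 / 4 := by
      rw [hδ, ← mul_div_assoc, ← mul_div_assoc, div_le_iff₀ hq0]
      nlinarith
    linarith
  have h9 : 0 < w * (NQ (Fin 3 × Fin d) K * |Φ t|) := by positivity
  rw [h4] at h3
  nlinarith

end Pool.Agent.Run7.h406.G
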