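import Pool.Agent.H39R2.Gon.Count

/-!
# The translation bound for an arbitrary monic polynomial
-/

namespace Pool.Agent.Run7.h406.G

open H39Gon Polynomial Finset

variable {K : Type} [Field K]

theorem monic_taylor {N : K[X]} (hN : N.Monic) (t : K) : (taylor t N).Monic := by
  unfold Monic
  rw [leadingCoeff_taylor]
  exact hN

theorem card_noncoprime [Fintype K] [DecidableEq K] (N : K[X]) (hN : N.Monic) (t0 : K)
    (s : Finset K) (hs : ∀ t ∈ s, ¬ IsCoprime (taylor t N) (taylor t0 N)) :
    s.card ≤ N.natDegree ^ 2 := by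
  classical
  set L := AlgebraicClosure K
  set φ := algebraMap K L
  set R : Finset L := (N.map φ).roots.toFinset with hR
  have hRc : R.card ≤ N.natDegree := by
    refine (Multiset.toFinset_card_le _).trans ?_
    refine (card_roots' _).trans ?_
    rw [natDegree_map]
  have hN0 : N.map φ ≠ 0 := (hN.map φ).ne_zero
  have hmem : ∀ a : L, (taylor t0 N).aeval a = 0 → a + φ t0 ∈ R := by
    intro a ha
    rw [hR, Multiset.mem_toFinset, mem_roots hN0, IsRoot.def]
    rw [← eval_map_algebraMap, map_taylor, taylor_eval] at ha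
    exact ha
  have hmem' : ∀ (t : K) (a : L), (taylor t N).aeval a = 0 → a + φ t ∈ R := by
    intro t a ha
    rw [hR, Multiset.mem_toFinset, mem_roots hN0, IsRoot.def]
    rw [← eval_map_algebraMap, map_taylor, taylor_eval] at ha
    exact ha
  have hsub : s.image φ ⊆ (R ×ˢ R).image (fun p => p.1 - p.2 + φ t0) := by
    intro x hx
    obtain ⟨t, ht, rfl⟩ := mem_image.1 hx
    have h1 := hs t ht
    rw [Polynomial.isCoprime_iff_aeval_ne_zero_of_isAlgClosed K L] at h1
    push Not at h1
    obtain ⟨a, ha1, ha2⟩ := h1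
    rw [mem_image]
    refine ⟨(a + φ t, a + φ t0), by simp [hmem' t a ha1, hmem a ha2], ?_⟩
    simp
  have hinj : (s.image φ).card = s.card := card_image_of_injective _ φ.injective
  rw [← hinj]
  refine (card_le_card hsub).trans (card_image_le.trans ?_)
  rw [card_product, sq]
  exact Nat.mul_le_mul hRc hRc

/-- Translation bound. -/
theorem translation_bound_gen [Fintype K] [DecidableEq K] {d : ℕ} (S : Finset (Fin d))
    (N : K[X]) (hNm : N.Monic) {a : ℕ}
    (h : N.natDegree + a = S.card + 1) (hN : 2 * N.natDegree ≤ S.card + 1)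
    [DecidableEq (AddChar (degreeLT K a) ℂ)] :
    ∑ χ ∈ univ.filter (fun χ : AddChar (degreeLT K (S.card + 1)) ℂ =>
        resC N h.le χ = 1),
      nrm (gf (K := K) S (S.card + 1) (Nat.lt_succ_self _)) χ ^ 2 ≤
      1 + (N.natDegree : ℝ) ^ 2 * (2 * d.factorial) / (Fintype.card K : ℝ) := by
  classical
  set al : AddChar (degreeLT K (S.card + 1)) ℂ → ℝ :=
    fun χ => nrm (gf (K := K) S (S.card + 1) (Nat.lt_succ_self _)) χ ^ 2 with hal
  have hq : (0 : ℝ) < Fintype.card K := by exact_mod_cast Fintype.card_pos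
  -- the translated polynomials
  set G : K → K[X] := fun t => taylor t N with hG
  have hGm : ∀ t, (G t).Monic := fun t => monic_taylor hNm t
  have hGd : ∀ t, (G t).natDegree = N.natDegree := fun t => natDegree_taylor _ _
  have hG0 : N = G 0 := by rw [hG]; simp
  have hGt : ∀ t, taylor t (G 0) = G t := by
    intro t
    rw [hG]; simp
  have ha : ∀ t, (G t).natDegree + a = S.card + 1 := by intro t; rw [hGd]; exact h
  -- D t
  set D : K → ℝ := fun t => ∑ χ ∈ (univ.filter (fun χ : AddChar (degreeLT K (S.card + 1)) ℂ =>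
        resC (G t) (ha t).le χ = 1)).erase 1, al χ with hD
  have hDt : ∀ t, D t = D 0 := by
    intro t
    rw [hD]
    simp only
    apply Finset.sum_bij' (fun χ _ => trc t χ) (fun χ _ => trc (-t) χ)
    · intro χ hχ
      simp only [mem_filter, mem_univ, true_and, mem_erase] at hχ ⊢
      refine ⟨?_, ?_⟩
      · intro h1
        apply hχ.1
        rw [← trc_neg t χ, h1]
        ext P; simp
      · ext P
        rw [resC_apply, trc_apply]
        have h2 := DFunLike.congr_fun hχ.2 (tay t _ P)
        rw [resC_apply] at h2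
        rw [AddChar.one_apply] at h2 ⊢
        rw [← h2]
        congr 1
        ext1
        rw [tay_coe, mulMap_coe, mulMap_coe, taylor_mul, hGt, tay_coe]
    · intro χ hχ
      simp only [mem_filter, mem_univ, true_and, mem_erase] at hχ ⊢
      refine ⟨?_, ?_⟩
      · intro h1
        apply hχ.1
        rw [← trc_neg' t χ, h1]
        ext P; simp
      · ext P
        rw [resC_apply, trc_apply]
        have h2 := DFunLike.congr_fun hχ.2 (tay (-t) _ P)
        rw [resC_apply] at h2
        rw [AddChar.one_apply] at h2 ⊢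
        rw [← h2]
        congr 1
        ext1
        rw [tay_coe, mulMap_coe, mulMap_coe, taylor_mul, ← hGt t, taylor_taylor, neg_add_cancel,
          taylor_zero, tay_coe]
    · intro χ _
      exact trc_neg t χ
    · intro χ _
      exact trc_neg' t χ
    · intro χ _
      rw [hal]; simp only
      rw [nrm_trc]
  have hcount : ∀ χ : AddChar (degreeLT K (S.card + 1)) ℂ, χ ≠ 1 →
      (univ.filter (fun t : K => resC (G t) (ha t).le χ = 1)).card ≤ N.natDegree ^ 2 := by
    intro χ hχ
    by_cases hne : (univ.filter (fun t : K => resC (G t) (ha t).le χ = 1)).Nonempty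
    · obtain ⟨t0, ht0⟩ := hne
      simp only [mem_filter, mem_univ, true_and] at ht0
      refine card_noncoprime N hNm t0 _ ?_
      intro t ht hcop
      simp only [mem_filter, mem_univ, true_and] at ht
      apply hχ
      apply resC_inj (hGm t) (hGm t0) hcop (ha t) (ha t0) (by rw [hGd, hGd]; omega) χ 1
      · rw [ht, resC_one]
      · rw [ht0, resC_one]
    · rw [Finset.not_nonempty_iff_eq_empty] at hne
      rw [hne]; simp
  have hsum : ∑ t : K, D t ≤ (N.natDegree : ℝ) ^ 2 * (2 * d.factorial) := by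
    calc ∑ t : K, D t = ∑ t : K, ∑ χ ∈ univ.erase (1 : AddChar (degreeLT K (S.card + 1)) ℂ),
          (if resC (G t) (ha t).le χ = 1 then al χ else 0) := by
          apply Finset.sum_congr rfl; intro t _
          rw [hD]; simp only
          rw [← Finset.sum_filter]
          apply Finset.sum_congr _ (fun _ _ => rfl)
          ext χ; simp only [mem_erase, mem_filter, mem_univ, true_and]
          tauto
      _ = ∑ χ ∈ univ.erase (1 : AddChar (degreeLT K (S.card + 1)) ℂ),
          ((univ.filter (fun t : K => resC (G t) (ha t).le χ = 1)).card : ℝ) * al χ := by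
          rw [Finset.sum_comm]
          apply Finset.sum_congr rfl; intro χ _
          rw [← Finset.sum_filter, Finset.sum_const, nsmul_eq_mul]
      _ ≤ ∑ χ ∈ univ.erase (1 : AddChar (degreeLT K (S.card + 1)) ℂ),
          (N.natDegree : ℝ) ^ 2 * al χ := by
          apply Finset.sum_le_sum
          intro χ hχ
          have := hcount χ (Finset.ne_of_mem_erase hχ)
          have h0 : 0 ≤ al χ := sq_nonneg _
          have h1 : ((univ.filter (fun t : K => resC (G t) (ha t).le χ = 1)).card : ℝ) ≤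
              (N.natDegree : ℝ) ^ 2 := by exact_mod_cast this
          exact mul_le_mul_of_nonneg_right h1 h0
      _ ≤ ∑ χ, (N.natDegree : ℝ) ^ 2 * al χ := by
          apply Finset.sum_le_sum_of_subset_of_nonneg (Finset.erase_subset _ _)
          intro χ _ _
          have h0 : 0 ≤ al χ := sq_nonneg _
          positivity
      _ ≤ _ := by
          rw [← Finset.mul_sum]
          have := parseval_gf (K := K) S
          apply mul_le_mul_of_nonneg_left this (by positivity)
  simp_rw [hDt] at hsum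
  rw [Finset.sum_const, Finset.card_univ, nsmul_eq_mul] at hsum
  have hfin : ∑ χ ∈ univ.filter (fun χ : AddChar (degreeLT K (S.card + 1)) ℂ =>
        resC N h.le χ = 1), al χ = D 0 + al 1 := by
    have e : univ.filter (fun χ : AddChar (degreeLT K (S.card + 1)) ℂ =>
        resC N h.le χ = 1) =
        univ.filter (fun χ : AddChar (degreeLT K (S.card + 1)) ℂ =>
        resC (G 0) (ha 0).le χ = 1) := by
      ext χ
      simp only [mem_filter, mem_univ, true_and]
      have : resC N h.le χ = resC (G 0) (ha 0).le χ := by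
        ext P
        rw [resC_apply, resC_apply]
        congr 1
        ext1
        rw [mulMap_coe, mulMap_coe, ← hG0]
      rw [this]
    rw [e, hD]
    simp only
    rw [Finset.sum_erase_add]
    simp only [mem_filter, mem_univ, true_and]
    exact resC_one _ _
  change ∑ χ ∈ univ.filter (fun χ : AddChar (degreeLT K (S.card + 1)) ℂ =>
        resC N h.le χ = 1), al χ ≤ _
  rw [hfin]
  have hal1 : al 1 = 1 := by
    rw [hal]; simp only
    rw [nrm_one]; simp
  rw [hal1]
  have : D 0 ≤ (N.natDegree : ℝ) ^ 2 * (2 * d.factorial) / (Fintype.card K : ℝ) := by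
    rw [le_div_iff₀ hq]; linarith
  linarith

theorem translation_bound_gen' [Fintype K] [DecidableEq K] {d : ℕ} (S : Finset (Fin d)) (n : ℕ)
    (hn : S.card + 1 = n) (h : S.card < n) (N : K[X]) (hNm : N.Monic) {a : ℕ}
    (hM : N.natDegree + a = n) (hN : 2 * N.natDegree ≤ n)
    [DecidableEq (AddChar (degreeLT K a) ℂ)] :
    ∑ χ ∈ univ.filter (fun χ : AddChar (degreeLT K n) ℂ => resC N hM.le χ = 1),
      nrm (gf (K := K) S n h) χ ^ 2 ≤
      1 + (N.natDegree : ℝ) ^ 2 * (2 * d.factorial) / (Fintype.card K : ℝ) := by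
  subst hn
  exact translation_bound_gen S N hNm hM hN

/-- abstract version of the error bound -/
theorem err_gen [Fintype K] [DecidableEq K] {d : ℕ} (S : Fin 3 → Finset (Fin d)) (n : Fin 3 → ℕ)
    (hn : ∀ Y, (S Y).card + 1 = n Y) (hlt : ∀ Y, (S Y).card < n Y)
    (M : Fin 3 → K[X]) (hmon : ∀ Y, (M Y).Monic) (hcop : ∀ X Y : Fin 3, X ≠ Y → IsCoprime (M X) (M Y))
    (NN : Fin 3 → K[X]) (hNNm : ∀ Y, (NN Y).Monic) (MM : K[X])
    (hMN : ∀ Y, M Y * NN Y = MM) (a e : ℕ)
    (hX : ∀ Y, (M Y).natDegree + n Y = d + 1)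
    (hra : ∀ Y, (NN Y).natDegree + a = n Y)
    (ht0 : (M 1).natDegree + e = n 0) (ht1 : (M 0).natDegree + e = n 1)
    (hle : (M 0).natDegree + (M 1).natDegree + (M 2).natDegree ≤ d + 1)
    (hNN : ∀ Y, 2 * (NN Y).natDegree ≤ n Y) (N : ℕ) (hN : ∀ Y, (NN Y).natDegree ≤ N) :
    ∑ χ ∈ univ.erase (1 : AddChar (degreeLT K (d + 1)) ℂ),
      nrm (gf (S 0) (n 0) (hlt 0)) (resC (a := n 0) (b := d + 1) (M 0) (le_of_eq (hX 0)) χ) *
      nrm (gf (S 1) (n 1) (hlt 1)) (resC (a := n 1) (b := d + 1) (M 1) (le_of_eq (hX 1)) χ) *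
      nrm (gf (S 2) (n 2) (hlt 2)) (resC (a := n 2) (b := d + 1) (M 2) (le_of_eq (hX 2)) χ) ≤
      (2 * d.factorial) * √((2 * d.factorial) / ((Fintype.card K : ℝ) - 1)) +
        ((1 + (N : ℝ) ^ 2 * (2 * d.factorial) / (Fintype.card K : ℝ)) ^ 2 - 1) := by
  classical
  have hq : (0 : ℝ) < Fintype.card K := by exact_mod_cast Fintype.card_pos
  have hrr : ∀ (Y Y' : Fin 3) (χ : AddChar (degreeLT K (d + 1)) ℂ),
      resC (a := a) (b := n Y) (NN Y) (le_of_eq (hra Y))
        (resC (a := n Y) (b := d + 1) (M Y) (le_of_eq (hX Y)) χ) =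
      resC (a := a) (b := n Y') (NN Y') (le_of_eq (hra Y'))
        (resC (a := n Y') (b := d + 1) (M Y') (le_of_eq (hX Y')) χ) := by
    intro Y Y' χ
    ext P
    rw [resC_apply, resC_apply, resC_apply, resC_apply]
    congr 1
    ext1
    rw [mulMap_coe, mulMap_coe, mulMap_coe, mulMap_coe, ← mul_assoc, ← mul_assoc, hMN, hMN]
  apply abstract_bound (Θ := AddChar (degreeLT K e) ℂ) (H := AddChar (degreeLT K a) ℂ)
    (resC (a := n 0) (b := d + 1) (M 0) (le_of_eq (hX 0)))
    (resC (a := n 1) (b := d + 1) (M 1) (le_of_eq (hX 1)))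
    (resC (a := n 2) (b := d + 1) (M 2) (le_of_eq (hX 2)))
    (resC (a := e) (b := n 0) (M 1) (le_of_eq ht0)) (resC (a := e) (b := n 1) (M 0) (le_of_eq ht1))
    ?_ ?_ ?_
    (resC (a := a) (b := n 0) (NN 0) (le_of_eq (hra 0)))
    (resC (a := a) (b := n 1) (NN 1) (le_of_eq (hra 1)))
    (resC (a := a) (b := n 2) (NN 2) (le_of_eq (hra 2))) ?_ ?_
    1 _ _ _ (nrm_nonneg _) (nrm_nonneg _) (nrm_nonneg _) ?_ _ _ _ (by positivity) (by positivity)
    (parseval_gf' _ _ (hn 0) _) (parseval_gf' _ _ (hn 1) _) ?_ ?_ ?_ ?_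
  · intro χ
    ext P
    rw [resC_apply, resC_apply, resC_apply, resC_apply]
    congr 1
    ext1
    rw [mulMap_coe, mulMap_coe, mulMap_coe, mulMap_coe]
    ring
  · intro χ χ' h h'
    exact resC_inj (hmon 0) (hmon 1) (hcop 0 1 (by decide)) (hX 0) (hX 1)
      (by omega) χ χ' h h'
  · intro χ χ' h h'
    have h01d : (M 0 * M 1).natDegree = (M 0).natDegree + (M 1).natDegree :=
      (hmon 0).natDegree_mul (hmon 1)
    have hX0 := hX 0
    have hd01 : (M 0 * M 1).natDegree + e = d + 1 := by rw [h01d]; omega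
    refine resC_inj ((hmon 0).mul (hmon 1)) (hmon 2)
      (IsCoprime.mul_left (hcop 0 2 (by decide)) (hcop 1 2 (by decide))) hd01 (hX 2)
      (by rw [h01d]; omega) χ χ' ?_ h'
    rw [← resC_comp (le_of_eq ht0) (le_of_eq (hX 0)) (le_of_eq hd01),
      ← resC_comp (le_of_eq ht0) (le_of_eq (hX 0)) (le_of_eq hd01)]
    exact h
  · intro χ; exact hrr 1 0 χ
  · intro χ; exact hrr 2 0 χ
  · rw [resC_one, resC_one, resC_one, nrm_one, nrm_one, nrm_one]; norm_num
  · intro Q hQ
    apply scaling_bound' _ _ (hn 2)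
    intro h1
    apply hQ
    rw [h1, resC_one, resC_one]
  · rw [resC_one, resC_one]
    refine (translation_bound_gen' (S 0) _ (hn 0) (hlt 0) _ (hNNm 0) (hra 0) (hNN 0)).trans ?_
    have : ((NN 0).natDegree : ℝ) ≤ N := by exact_mod_cast hN 0
    gcongr
  · rw [resC_one, resC_one]
    refine (translation_bound_gen' (S 1) _ (hn 1) (hlt 1) _ (hNNm 1) (hra 1) (hNN 1)).trans ?_
    have : ((NN 1).natDegree : ℝ) ≤ N := by exact_mod_cast hN 1
    gcongr
  · rw [resC_one, resC_one]
    refine (translation_bound_gen' (S 2) _ (hn 2) (hlt 2) _ (hNNm 2) (hra 2) (hNN 2)).trans ?_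
    have : ((NN 2).natDegree : ℝ) ≤ N := by exact_mod_cast hN 2
    gcongr

end Pool.Agent.Run7.h406.G
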