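import Pool.Agent.H39R2.GonP.Defs

/-!
# Polynomials of bounded degree, and the span of the elements `f ⊗ ... ⊗ f ⊗ (1 - f)`
-/

namespace Pool.Agent.Run7.h406.G

open GonP Polynomial

/-- the subgroup of `K(x)^*` generated by the polynomials of degree at most `E` -/
noncomputable def lowDeg (K : Type) [Field K] (E : ℕ) : AddSubgroup (UV (RatFunc K)) :=
  AddSubgroup.closure {u | ∃ P : K[X], P ≠ 0 ∧ P.natDegree ≤ E ∧
    u = cl (algebraMap K[X] (RatFunc K) P)}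

/-- `s^(m+1) ⊗ v` lies in the span of the elements `f^(m+1) ⊗ (1 - f)`, `f ≠ 0, 1`, of
`Sym^(m+1) F^* ⊗ F^* ⊗ ℚ`; dual form: every multilinear `Q : (F^*)^(m+1) → Hom(F^*, ℚ)` which
vanishes on these elements vanishes on `s^(m+1) ⊗ v`. -/
def InSpan (F : Type) [Field F] (m : ℕ) (s v : UV F) : Prop :=
  ∀ Q : MultilinearMap ℤ (fun _ : Fin (m + 1) => UV F) (UV F →ₗ[ℤ] ℚ),
    (∀ f : F, f ≠ 0 → f ≠ 1 → Q (fun _ => cl f) (cl (1 - f)) = 0) → Q (fun _ => s) v = 0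

end Pool.Agent.Run7.h406.G
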