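import Pool.Agent.Run7.h406.G.Acyc
import Pool.Agent.Run7.h406.G.B4

/-!
# Directed unions of fields
-/

namespace Pool.Agent.Run7.h406.G

open H39Gon H39Gon.TaskB H39Gon.C4 H39Gon.TC2 Pool.Agent.TH358.GP

section ext

variable {A B : Type} [AddCommGroup A] [AddCommGroup B] (i : A →ₗ[ℤ] B)
  (hi : Function.Injective i)

include hi in
/-- a linear extension operator -/
theorem exists_op (W : Type) [AddCommGroup W] [Module ℚ W] :
    ∃ E : (A →ₗ[ℤ] W) →ₗ[ℤ] (B →ₗ[ℤ] W), ∀ φ a, E φ (i a) = φ a := by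
  let res : (B →ₗ[ℤ] W) →ₗ[ℚ] (A →ₗ[ℤ] W) :=
    { toFun := fun φ => φ ∘ₗ i
      map_add' := fun φ ψ => by ext; rfl
      map_smul' := fun c φ => by ext; rfl }
  have hsurj : Function.Surjective res := by
    intro φ
    obtain ⟨L, hL⟩ := exists_ext i φ (fun a ha => by
      have : a = 0 := hi (by rw [ha, map_zero])
      rw [this, map_zero])
    exact ⟨L, hL.symm⟩
  obtain ⟨E, hE⟩ := LinearMap.exists_rightInverse_of_surjective res
    (LinearMap.range_eq_top.2 hsurj)
  refine ⟨AddMonoidHom.toIntLinearMap E.toAddMonoidHom, fun φ a => ?_⟩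
  have h1 : res (E φ) = φ := LinearMap.congr_fun hE φ
  exact LinearMap.congr_fun h1 a

include hi in
/-- extension of multilinear maps with values in a `ℚ`-vector space -/
theorem multi_ext (n : ℕ) : ∀ (W : Type) [AddCommGroup W] [Module ℚ W]
    (f : MultilinearMap ℤ (fun _ : Fin n => A) W),
    ∃ g : MultilinearMap ℤ (fun _ : Fin n => B) W, ∀ v, g (fun j => i (v j)) = f v := by
  induction n with
  | zero =>
    intro W _ _ f
    refine ⟨MultilinearMap.constOfIsEmpty ℤ _ (f (fun j => j.elim0)), fun v => ?_⟩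
    change f (fun j => j.elim0) = f v
    congr 1
    exact Subsingleton.elim _ _
  | succ n ih =>
    intro W _ _ f
    obtain ⟨g1, hg1⟩ := ih (A →ₗ[ℤ] W) f.curryRight
    obtain ⟨E, hE⟩ := exists_op i hi W
    refine ⟨MultilinearMap.uncurryRight (M := fun _ : Fin (n + 1) => B)
      (E.compMultilinearMap g1), fun v => ?_⟩
    rw [MultilinearMap.uncurryRight_apply, LinearMap.compMultilinearMap_apply, hE]
    have h1 : (Fin.init fun j => i (v j) : Fin n → B) = fun j => i (Fin.init v j) := rfl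
    rw [h1, hg1, MultilinearMap.curryRight_apply]
    congr 1
    exact Fin.snoc_init_self v

end ext

section curry

variable {V W : Type} [AddCommGroup V] [AddCommGroup W] {m : ℕ}

/-- uncurried form -/
noncomputable def unc (Ψ : V →ₗ[ℤ] V →ₗ[ℤ] MultilinearMap ℤ (fun _ : Fin m => V) W) :
    MultilinearMap ℤ (fun _ : Fin (m + 2) => V) W :=
  LinearMap.uncurryLeft (M := fun _ : Fin (m + 2) => V)
    ((multilinearCurryLeftEquiv ℤ (fun _ : Fin (m + 1) => V) W).symm.toLinearMap ∘ₗ Ψ)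

theorem unc_apply (Ψ : V →ₗ[ℤ] V →ₗ[ℤ] MultilinearMap ℤ (fun _ : Fin m => V) W) (a b : V)
    (c : Fin m → V) :
    unc Ψ (Fin.cons a (Fin.cons b c : Fin (m + 1) → V) : Fin (m + 2) → V) = Ψ a b c := rfl

/-- curried form -/
noncomputable def cur2 (G : MultilinearMap ℤ (fun _ : Fin (m + 2) => V) W) :
    V →ₗ[ℤ] V →ₗ[ℤ] MultilinearMap ℤ (fun _ : Fin m => V) W :=
  (multilinearCurryLeftEquiv ℤ (fun _ : Fin (m + 1) => V) W).toLinearMap ∘ₗ G.curryLeft

theorem cur2_apply (G : MultilinearMap ℤ (fun _ : Fin (m + 2) => V) W) (a b : V)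
    (c : Fin m → V) :
    cur2 G a b c = G (Fin.cons a (Fin.cons b c : Fin (m + 1) → V) : Fin (m + 2) → V) := rfl

/-- antisymmetrisation -/
noncomputable def asym (G : MultilinearMap ℤ (fun _ : Fin (m + 2) => V) W) :
    V →ₗ[ℤ] V →ₗ[ℤ] MultilinearMap ℤ (fun _ : Fin m => V) W := cur2 G - (cur2 G).flip

theorem asym_apply (G : MultilinearMap ℤ (fun _ : Fin (m + 2) => V) W) (a b : V)
    (c : Fin m → V) :
    asym G a b c = G (Fin.cons a (Fin.cons b c : Fin (m + 1) → V) : Fin (m + 2) → V) -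
      G (Fin.cons b (Fin.cons a c : Fin (m + 1) → V) : Fin (m + 2) → V) := rfl

theorem asym_self (G : MultilinearMap ℤ (fun _ : Fin (m + 2) => V) W) (a : V) :
    asym G a a = 0 := by
  ext c
  rw [asym_apply, sub_self]
  rfl

theorem alt_swap (Ψ : V →ₗ[ℤ] V →ₗ[ℤ] MultilinearMap ℤ (fun _ : Fin m => V) W)
    (hΨ : ∀ a, Ψ a a = 0) (a b : V) : Ψ b a = - Ψ a b := by
  have h1 := hΨ (a + b)
  rw [LinearMap.map_add₂, map_add, map_add, hΨ, hΨ, zero_add, add_zero] at h1
  rw [eq_neg_iff_add_eq_zero, add_comm]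
  exact h1

end curry

section field

variable {F F' : Type} [Field F] [Field F']

theorem rmU_inj (φ : F' →+* F) : Function.Injective (rmU φ) := by
  intro a b h
  have h1 : Units.map (φ : F' →* F) a.toMul = Units.map (φ : F' →* F) b.toMul := h
  have h2 : a.toMul = b.toMul := Units.map_injective φ.injective h1
  exact h2

/-- extension of the functionals `Ψ` -/
theorem exists_Psi (φ : F' →+* F) {m : ℕ}
    (Ψ : UV F' →ₗ[ℤ] UV F' →ₗ[ℤ] MultilinearMap ℤ (fun _ : Fin m => UV F') ℚ)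
    (hΨ : ∀ a, Ψ a a = 0) :
    ∃ Ψ' : UV F →ₗ[ℤ] UV F →ₗ[ℤ] MultilinearMap ℤ (fun _ : Fin m => UV F) ℚ,
      (∀ a, Ψ' a a = 0) ∧ ∀ α : ZP F', ev Ψ' (rmM φ α) = 2 * ev Ψ α := by
  obtain ⟨G, hG⟩ := multi_ext (rmU φ) (rmU_inj φ) (m + 2) ℚ (unc Ψ)
  refine ⟨asym G, asym_self G, fun α => ?_⟩
  have h1 : (ev (asym G)) ∘ₗ (rmM φ) = (2 : ℤ) • ev Ψ := by
    apply Finsupp.lhom_ext'
    intro x
    apply LinearMap.ext_ring
    rw [LinearMap.comp_apply, LinearMap.comp_apply, Finsupp.lsingle_apply, rmM_single,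
      LinearMap.comp_apply, LinearMap.smul_apply, Finsupp.lsingle_apply]
    cases x with
    | none => rw [Option.map_none, ev_single_none, ev_single_none, smul_zero]
    | some x =>
      rw [Option.map_some, ev_single_some, ev_single_some, one_smul, one_smul, asym_apply]
      have e : ∀ a b : F', (Fin.cons (cl (φ a)) (Fin.cons (cl (φ b)) (fun _ => cl (φ x)) :
          Fin (m + 1) → UV F) : Fin (m + 2) → UV F) = fun j => rmU φ
          ((Fin.cons (cl a) (Fin.cons (cl b) (fun _ => cl x) : Fin (m + 1) → UV F') :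
            Fin (m + 2) → UV F') j) := by
        intro a b
        funext j
        induction j using Fin.cases with
        | zero => exact (rmU_cl φ a).symm
        | succ j =>
          induction j using Fin.cases with
          | zero => exact (rmU_cl φ b).symm
          | succ j => exact (rmU_cl φ x).symm
      have e1 : (1 : F) - φ x = φ (1 - x) := by rw [map_sub, map_one]
      rw [e1, e, e, hG, hG, unc_apply, unc_apply, alt_swap Ψ hΨ (cl (1 - x)) (cl x)]
      rw [_root_.neg_apply, sub_neg_eq_add, two_smul]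
  have h2 := LinearMap.congr_fun h1 α
  rw [LinearMap.comp_apply, LinearMap.smul_apply] at h2
  rw [h2]
  simp

/-- torsion criterion -/
def TorsCrit (F : Type) [Field F] : Prop :=
  ∀ (m : ℕ) (α : ZP F), (∀ Ψ : UV F →ₗ[ℤ] UV F →ₗ[ℤ] MultilinearMap ℤ (fun _ : Fin m => UV F) ℚ,
    (∀ a, Ψ a a = 0) → ev Ψ α = 0) → ∃ N : ℕ, 0 < N ∧ N • α ∈ R (m + 2) F

theorem ev_comp {V W : Type} [AddCommGroup V] [AddCommGroup W] {m : ℕ}
    (β : UV F →ₗ[ℤ] UV F →ₗ[ℤ] MultilinearMap ℤ (fun _ : Fin m => UV F) V)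
    (γ : UV F →ₗ[ℤ] UV F →ₗ[ℤ] MultilinearMap ℤ (fun _ : Fin m => UV F) W)
    (L : V →ₗ[ℤ] W) (h : ∀ a b c, L (β a b c) = γ a b c) (α : ZP F) :
    L (ev β α) = ev γ α := by
  have h1 : L ∘ₗ (ev β) = ev γ := by
    apply Finsupp.lhom_ext'
    intro x
    apply LinearMap.ext_ring
    rw [LinearMap.comp_apply, LinearMap.comp_apply, Finsupp.lsingle_apply, LinearMap.comp_apply,
      Finsupp.lsingle_apply]
    cases x with
    | none => rw [ev_single_none, ev_single_none, map_zero]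
    | some x => rw [ev_single_some, ev_single_some, one_smul, one_smul, h]
  exact LinearMap.congr_fun h1 α

theorem evS_of_crit (h : TorsCrit F) : EvS F := by
  intro m W _ _ θ hθ
  obtain ⟨β, hβ⟩ : ∃ β : UV F →ₗ[ℤ] UV F →ₗ[ℤ] MultilinearMap ℤ (fun _ : Fin m => UV F)
      (PiTensorProduct ℤ (fun _ : Fin (m + 2) => UV F)), β = asym (PiTensorProduct.tprod ℤ) :=
    ⟨_, rfl⟩
  have hker : ∀ α, ev β α = 0 → θ α = 0 := by
    intro α hα
    obtain ⟨N, hN, h1⟩ := h m α (by
      intro Ψ hΨ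
      have h2 := ev_comp β ((2 : ℤ) • Ψ) (PiTensorProduct.lift (unc Ψ)) (by
        intro a b c
        rw [hβ, asym_apply, map_sub, PiTensorProduct.lift.tprod, PiTensorProduct.lift.tprod,
          unc_apply, unc_apply, alt_swap Ψ hΨ a b, _root_.neg_apply, sub_neg_eq_add,
          LinearMap.smul_apply, LinearMap.smul_apply, _root_.smul_apply, two_smul]) α
      rw [hα, map_zero] at h2
      have h3 : ev ((2 : ℤ) • Ψ) α = (2 : ℤ) • ev Ψ α := by
        have := ev_comp Ψ ((2 : ℤ) • Ψ) ((2 : ℤ) • LinearMap.id) (fun a b c => rfl) α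
        rw [← this]
        rfl
      rw [h3] at h2
      rcases smul_eq_zero.1 h2.symm with h4 | h4
      · exact absurd h4 (by norm_num)
      · exact h4)
    have h5 := hθ _ h1
    rw [map_nsmul, ← Nat.cast_smul_eq_nsmul ℚ] at h5
    exact (smul_eq_zero.1 h5).resolve_left (Nat.cast_ne_zero.2 hN.ne')
  obtain ⟨L, hL⟩ := exists_ext _ θ hker
  let E : MultilinearMap ℤ (fun _ : Fin m => UV F)
      (PiTensorProduct ℤ (fun _ : Fin (m + 2) => UV F)) →ₗ[ℤ]
      MultilinearMap ℤ (fun _ : Fin m => UV F) W :=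
    { toFun := fun f => L.compMultilinearMap f
      map_add' := fun f g => by ext v; simp
      map_smul' := fun n f => by ext v; simp }
  refine ⟨β.compr₂ E, fun a => ?_, ?_⟩
  · rw [LinearMap.compr₂_apply, hβ, asym_self, map_zero]
  · rw [hL]
    refine LinearMap.ext fun α => ?_
    rw [LinearMap.comp_apply]
    exact ev_comp β (β.compr₂ E) L (fun a b c => rfl) α

/-- every element of `ℤ[P^1_F]` comes from a subfield containing its support -/
theorem exists_lift_ZP (φ : F' →+* F) (α : ZP F)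
    (h : ∀ x : F, some x ∈ α.support → ∃ y, φ y = x) : ∃ α' : ZP F', rmM φ α' = α := by
  classical
  induction α using Finsupp.induction with
  | zero => exact ⟨0, map_zero _⟩
  | single_add x n α hx hn ih =>
    rw [Finsupp.support_single_add hx hn] at h
    obtain ⟨α', hα'⟩ := ih (fun y hy => h y (Finset.mem_cons_of_mem hy))
    cases x with
    | none =>
      refine ⟨Finsupp.single none n + α', ?_⟩
      rw [map_add, rmM_single, hα']
      rfl
    | some x =>
      obtain ⟨y, rfl⟩ := h x (Finset.mem_cons_self _ _)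
      refine ⟨Finsupp.single (some y) n + α', ?_⟩
      rw [map_add, rmM_single, hα']
      rfl

/-- `EvS` for directed unions -/
theorem evS_union (h : ∀ S : Finset F, ∃ (F' : Type) (_ : Field F') (φ : F' →+* F),
    EvS F' ∧ ∀ x ∈ S, ∃ y, φ y = x) : EvS F := by
  classical
  apply evS_of_crit
  intro m α hα
  obtain ⟨F', _, φ, hF', hS⟩ := h (α.support.biUnion (fun x => match x with
    | none => ∅
    | some x => {x}))
  obtain ⟨α', hα'⟩ := exists_lift_ZP φ α (fun x hx => hS x (by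
    rw [Finset.mem_biUnion]
    exact ⟨some x, hx, by simp⟩))
  obtain ⟨N, hN, h1⟩ := tors_of_ev hF' m α' (by
    intro Ψ hΨ
    obtain ⟨Ψ', hΨ', h2⟩ := exists_Psi φ Ψ hΨ
    have h3 := h2 α'
    rw [hα', hα Ψ' hΨ'] at h3
    rcases mul_eq_zero.1 h3.symm with h4 | h4
    · exact absurd h4 (by norm_num)
    · exact h4)
  refine ⟨N, hN, ?_⟩
  rw [← hα', ← map_nsmul]
  exact R_map φ m _ h1

theorem spanDual_union (m : ℕ) (h : ∀ S : Finset F, ∃ (F' : Type) (_ : Field F') (φ : F' →+* F),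
    SpanDual F' m ∧ ∀ x ∈ S, ∃ y, φ y = x) : SpanDual F m := by
  classical
  intro Q hQ s v
  obtain ⟨f, hf, rfl⟩ := exists_cl s
  obtain ⟨g, hg, rfl⟩ := exists_cl v
  obtain ⟨F', _, φ, hF', hS⟩ := h {f, g}
  obtain ⟨f', rfl⟩ := hS f (by simp)
  obtain ⟨g', rfl⟩ := hS g (by simp)
  set Q' : MultilinearMap ℤ (fun _ : Fin (m + 1) => UV F') (UV F' →ₗ[ℤ] ℚ) :=
    (LinearMap.lcomp ℤ ℚ (rmU φ)).compMultilinearMap (Q.compLinearMap (fun _ => rmU φ)) with hQ'
  have hQ'a : ∀ s v, Q' (fun _ => s) v = Q (fun _ => rmU φ s) (rmU φ v) := fun s v => rfl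
  have h1 := hF' Q' (by
    intro x hx0 hx1
    rw [hQ'a, rmU_cl, rmU_cl, map_sub, map_one]
    apply hQ
    · rw [Ne, map_eq_zero]; exact hx0
    · intro h
      exact hx1 (φ.injective (by rw [h, map_one]))) (cl f') (cl g')
  rw [hQ'a, rmU_cl, rmU_cl] at h1
  exact h1

end field

end Pool.Agent.Run7.h406.G
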