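import Pool.Agent.Run7.h406.G.Defs
import Pool.Agent.Run7.h406.G.Low
import Pool.Agent.Run7.h406.G.Union
import Pool.Agent.H39R2.GonP.Bridge

/-!
# Acyclicity for locally rational fields
-/

namespace Pool.Agent.Run7.h406.G

open H39Gon Pool.Agent.TH358.GP Polynomial

theorem evS_rat (k : Type) [Field k] (p : ℕ) [Fact p.Prime] [Algebra (ZMod p) k]
    [Algebra.IsAlgebraic (ZMod p) k] : EvS (RatFunc k) := by
  haveI : CharP k p := charP_of_injective_algebraMap (algebraMap (ZMod p) k).injective p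
  intro m W _ _ θ hθ
  exact ev_surj k p (frob_fix k p) m θ hθ

theorem evS_loc (F : Type) [Field F] (h : LocRational F) : EvS F := by
  apply evS_union
  intro S
  obtain ⟨p, _, k, _, _, _, _, φ, hφ⟩ := h S
  exact ⟨RatFunc k, inferInstance, φ, evS_rat k p, hφ⟩

theorem spanDual_loc (F : Type) [Field F] (h : LocRational F) (m : ℕ) : SpanDual F m := by
  apply spanDual_union
  intro S
  obtain ⟨p, _, k, _, _, _, _, φ, hφ⟩ := h S
  exact ⟨RatFunc k, inferInstance, φ, spanDual_inf k p m, hφ⟩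

theorem acyclic_loc (F : Type) [Field F] (h : LocRational F) :
    Nonempty (H39Gon.Differentials F) ∧ ∀ D : H39Gon.Differentials F, D.Acyclic :=
  ⟨exists_D (evS_loc F h), fun D => acyclic_evS (evS_loc F h) (spanDual_loc F h) D⟩

theorem locRational_ratFunc (p : ℕ) [hp : Fact p.Prime] (k : Type) [i1 : Field k] [i2 : Infinite k]
    [i3 : Algebra (ZMod p) k] [i4 : Algebra.IsAlgebraic (ZMod p) k] : LocRational (RatFunc k) := by
  intro S
  exact ⟨p, hp, k, i1, i2, i3, i4, RingHom.id _, fun x _ => ⟨x, rfl⟩⟩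

theorem acyclicP_loc (F : Type) [Field F] (h : LocRational F) :
    ∃ D : GonP.Differentials F, (∀ D' : GonP.Differentials F, D' = D) ∧ D.Acyclic := by
  obtain ⟨⟨D⟩, hD⟩ := acyclic_loc F h
  exact ⟨GonP.ofD D, fun D' => GonP.unique (GonP.ofD D) D', GonP.ofD_acyclic D (hD D)⟩

theorem cl_eqG {F : Type} [Field F] (x : F) : GonP.cl x = H39Gon.cl x := rfl

/-- bounded degree, finite constant fields -/
theorem finite_bound (m E : ℕ) : ∃ q0 : ℕ, ∀ (K : Type) [Field K] [Fintype K],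
    q0 ≤ Fintype.card K →
    ∀ s v : GonP.UV (RatFunc K), s ∈ lowDeg K E → v ∈ lowDeg K E → InSpan (RatFunc K) m s v := by
  obtain ⟨q0, hq0⟩ := spanDual_fin m E
  refine ⟨q0, ?_⟩
  intro K _ _ hK s v hs hv Q hQ
  have hle : ∀ u, u ∈ lowDeg K E →
      u ∈ sat {u : UV (RatFunc K) | ∃ P : K[X], P ≠ 0 ∧ P.natDegree ≤ E ∧ u = cp P} := by
    intro u hu
    have : lowDeg K E ≤
      (sat {u : UV (RatFunc K) | ∃ P : K[X], P ≠ 0 ∧ P.natDegree ≤ E ∧ u = cp P}).toAddSubgroup := by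
      unfold lowDeg
      rw [AddSubgroup.closure_le]
      rintro _ ⟨P, hP, hE, rfl⟩
      exact subset_sat ⟨P, hP, hE, rfl⟩
    exact this hu
  exact hq0 K hK Q hQ s v (hle s hs) (hle v hv)

end Pool.Agent.Run7.h406.G
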