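import Pool.Agent.Run7.h406.G.Count
import Pool.Agent.H39R2.Gon.A2

/-!
# Total variation and blocks
-/

namespace Pool.Agent.Run7.h406.G

open H39Gon H39Gon.A2 Polynomial Finset

section general

variable {I K : Type} [Fintype I] [DecidableEq I] [Fintype K] [DecidableEq K]

open Classical in
/-- total variation lemma -/
theorem tv_gen [Nonempty K] (W : (I → K) → ℝ) (hW : ∀ z, 0 ≤ W z)
    (w ε δ : ℝ) (hw : 0 ≤ w) (hεw : 0 ≤ ε * w) (T : Finset I) (G : (I → K) → Prop)
    (hS : |(∑ z, W z) / NQ I K - w| ≤ ε * w)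
    (hT : ∀ z, G z → |A T W z - w| ≤ ε * w)
    (hbad : ∑ z, (if G z then (0 : ℝ) else 1) ≤ δ * NQ I K) :
    ∑ z, |A T W z - w| ≤ ((3 * ε + 2 * δ) * w) * NQ I K := by
  have hQ : (0 : ℝ) < NQ I K := NQ_pos
  have h1 : ∀ z, |A T W z - w| ≤ A T W z + ((-w + 2 * (ε * w)) +
      2 * w * (if G z then (0 : ℝ) else 1)) := by
    intro z
    split_ifs with hz
    · have := hT z hz
      have h3 := abs_le.1 this
      rw [abs_le]
      constructor <;> nlinarith
    · have h4 : 0 ≤ A T W z := A_nonneg T hW z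
      rw [abs_le]
      constructor <;> nlinarith
  have h2 : ∑ z, |A T W z - w| ≤ ∑ z, (A T W z + ((-w + 2 * (ε * w)) +
      2 * w * (if G z then (0 : ℝ) else 1))) := sum_le_sum (fun z _ => h1 z)
  have h3 : ∑ z, A T W z = ∑ z, W z := by
    have := sum_mul_A T (fun _ => (1 : ℝ)) W (fun _ _ => rfl)
    simpa using this
  rw [sum_add_distrib, sum_add_distrib, ← mul_sum, h3] at h2
  simp only [sum_const, card_univ, nsmul_eq_mul] at h2
  rw [card_fun] at h2
  have h5 := abs_le.1 hS
  have h6 : ∑ z, W z ≤ (w + ε * w) * NQ I K := by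
    rw [← div_le_iff₀ hQ]; linarith [h5.2]
  have h7 : 2 * w * ∑ z, (if G z then (0 : ℝ) else 1) ≤ 2 * w * (δ * NQ I K) :=
    mul_le_mul_of_nonneg_left hbad (by linarith)
  nlinarith

theorem err_F [Nonempty K] (W : (I → K) → ℝ) (w B : ℝ) (T : Finset I)
    (hB : ∑ z, |A T W z - w| ≤ B) (F : (I → K) → ℝ)
    (hF : ∀ z z', F (T.piecewise z z') = F z) (M : ℝ) (hM0 : 0 ≤ M) (hM : ∀ z, |F z| ≤ M) :
    |∑ z : I → K, (W z - w) * F z| ≤ M * B := by
  have h3 : ∑ z : I → K, (W z - w) * F z = ∑ z, F z * (A T W z - w) := by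
    have h4 := sum_mul_A T F W hF
    have h5 : ∑ z, F z * (A T W z - w) = ∑ z, F z * (W z - w) := by
      simp only [mul_sub, sum_sub_distrib]
      rw [h4]
    rw [h5]
    exact sum_congr rfl fun z _ => mul_comm _ _
  rw [h3]
  calc |∑ z, F z * (A T W z - w)| ≤ ∑ z, |F z * (A T W z - w)| := abs_sum_le_sum_abs _ _
    _ ≤ ∑ z, M * |A T W z - w| := by
        refine sum_le_sum fun z _ => ?_
        rw [abs_mul]
        exact mul_le_mul_of_nonneg_right (hM z) (abs_nonneg _)
    _ = M * ∑ z, |A T W z - w| := by rw [mul_sum]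
    _ ≤ M * B := mul_le_mul_of_nonneg_left hB hM0

/-- number of functions with a prescribed root. -/
theorem card_root [Field K] (a : I) (P : K[X]) (hP : P ≠ 0) :
    (Fintype.card K : ℝ) * ∑ z : I → K, (if P.eval (z a) = 0 then (1 : ℝ) else 0) ≤
      P.natDegree * NQ I K := by
  rw [← sum_update a (fun z => if P.eval (z a) = 0 then (1 : ℝ) else 0)]
  simp only [Function.update_self]
  have h1 : ∑ x : K, (if P.eval x = 0 then (1 : ℝ) else 0) ≤ P.natDegree := by
    rw [Finset.sum_boole]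
    have : (univ.filter (fun x : K => P.eval x = 0)).card ≤ P.natDegree := by
      refine le_trans (card_le_card (t := P.roots.toFinset) ?_)
        ((Multiset.toFinset_card_le _).trans (card_roots' _))
      intro x hx
      simp only [mem_filter, mem_univ, true_and] at hx
      rw [Multiset.mem_toFinset, mem_roots hP]
      exact hx
    exact_mod_cast this
  rw [sum_const, card_univ, nsmul_eq_mul, card_fun, mul_comm]
  exact mul_le_mul_of_nonneg_right h1 (by unfold NQ; positivity)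

open Classical in
/-- probability of bad events -/
theorem prob_bad_gen [Field K] {γ : Type} (grp : I → γ) (T : Finset I) {β : Type}
    (U : Finset β) (g : β → γ) (P : β → K[X]) (hP : ∀ i ∈ U, P i ≠ 0) (E : ℕ)
    (hE : ∀ i ∈ U, (P i).natDegree ≤ E) :
    ∑ z : I → K, (if (∀ a ∈ T, ∀ b ∈ T, grp a ≠ grp b → z a ≠ z b) ∧
      (∀ a ∈ T, ∀ i ∈ U, g i ≠ grp a → (P i).eval (z a) ≠ 0) then (0 : ℝ) else 1) ≤
      (((T.card : ℝ) ^ 2 + T.card * (U.card * E)) / Fintype.card K) * NQ I K := by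
  have hq : (0 : ℝ) < Fintype.card K := by exact_mod_cast (Fintype.card_pos : 0 < Fintype.card K)
  have hQ : (0 : ℝ) < NQ I K := NQ_pos
  rw [div_mul_eq_mul_div, le_div_iff₀ hq]
  have h1 : ∀ z : I → K, (if (∀ a ∈ T, ∀ b ∈ T, grp a ≠ grp b → z a ≠ z b) ∧
      (∀ a ∈ T, ∀ i ∈ U, g i ≠ grp a → (P i).eval (z a) ≠ 0) then (0 : ℝ) else 1)
      ≤ (∑ a ∈ T, ∑ b ∈ T, (if grp a ≠ grp b ∧ z a = z b then (1 : ℝ) else 0)) +
        ∑ a ∈ T, ∑ i ∈ U, (if (P i).eval (z a) = 0 then (1 : ℝ) else 0) := by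
    intro z
    have hnn : 0 ≤ ∑ a ∈ T, ∑ b ∈ T, (if grp a ≠ grp b ∧ z a = z b then (1 : ℝ) else 0) :=
      sum_nonneg fun a _ => sum_nonneg fun b _ => by split_ifs <;> norm_num
    have hnn2 : 0 ≤ ∑ a ∈ T, ∑ i ∈ U, (if (P i).eval (z a) = 0 then (1 : ℝ) else 0) :=
      sum_nonneg fun a _ => sum_nonneg fun b _ => by split_ifs <;> norm_num
    split_ifs with hz
    · exact add_nonneg hnn hnn2
    · rw [not_and_or] at hz
      rcases hz with hz | hz
      · push Not at hz
        obtain ⟨a, ha, b, hb, hab, hz⟩ := hz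
        have : (1 : ℝ) ≤ ∑ a ∈ T, ∑ b ∈ T, (if grp a ≠ grp b ∧ z a = z b then (1 : ℝ) else 0) := by
          calc (1 : ℝ) = (if grp a ≠ grp b ∧ z a = z b then (1 : ℝ) else 0) := by simp [hab, hz]
            _ ≤ ∑ b ∈ T, (if grp a ≠ grp b ∧ z a = z b then (1 : ℝ) else 0) :=
                single_le_sum (f := fun b => (if grp a ≠ grp b ∧ z a = z b then (1 : ℝ) else 0))
                  (fun b _ => by split_ifs <;> norm_num) hb
            _ ≤ _ :=
                single_le_sum (f := fun a => ∑ b ∈ T, (if grp a ≠ grp b ∧ z a = z b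
                  then (1 : ℝ) else 0))
                  (fun a _ => sum_nonneg fun b _ => by split_ifs <;> norm_num) ha
        linarith
      · push Not at hz
        obtain ⟨a, ha, i, hi, hai, hz⟩ := hz
        have : (1 : ℝ) ≤ ∑ a ∈ T, ∑ i ∈ U, (if (P i).eval (z a) = 0 then (1 : ℝ) else 0) := by
          calc (1 : ℝ) = (if (P i).eval (z a) = 0 then (1 : ℝ) else 0) := by simp [hz]
            _ ≤ ∑ i ∈ U, (if (P i).eval (z a) = 0 then (1 : ℝ) else 0) :=
                single_le_sum (f := fun i => (if (P i).eval (z a) = 0 then (1 : ℝ) else 0))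
                  (fun b _ => by split_ifs <;> norm_num) hi
            _ ≤ _ :=
                single_le_sum (f := fun a => ∑ i ∈ U, (if (P i).eval (z a) = 0
                  then (1 : ℝ) else 0))
                  (fun a _ => sum_nonneg fun b _ => by split_ifs <;> norm_num) ha
        linarith
  have h2 : ∀ a ∈ T, ∀ b ∈ T, (Fintype.card K : ℝ) * ∑ z : I → K,
      (if grp a ≠ grp b ∧ z a = z b then (1 : ℝ) else 0) ≤ NQ I K := by
    intro a ha b hb
    by_cases hab : grp a = grp b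
    · simp [hab, hQ.le]
    have hne : a ≠ b := fun h => hab (by rw [h])
    have := card_coinc a (fun z' : I → K => z' b) (by
          intro z x
          simp [Function.update_of_ne hne.symm])
    rw [← this]
    refine le_of_eq ?_
    congr 1
    refine sum_congr rfl fun z' _ => ?_
    congr 1
    exact propext ⟨fun h => h.2, fun h => ⟨hab, h⟩⟩
  have h3 : ∀ a ∈ T, ∀ i ∈ U, (Fintype.card K : ℝ) * ∑ z : I → K,
      (if (P i).eval (z a) = 0 then (1 : ℝ) else 0) ≤ E * NQ I K := by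
    intro a _ i hi
    refine (card_root a (P i) (hP i hi)).trans ?_
    have : ((P i).natDegree : ℝ) ≤ E := by exact_mod_cast hE i hi
    exact mul_le_mul_of_nonneg_right this hQ.le
  calc (∑ z : I → K, (if (∀ a ∈ T, ∀ b ∈ T, grp a ≠ grp b → z a ≠ z b) ∧
      (∀ a ∈ T, ∀ i ∈ U, g i ≠ grp a → (P i).eval (z a) ≠ 0) then (0 : ℝ) else 1)) *
        Fintype.card K
      ≤ (∑ z : I → K, ((∑ a ∈ T, ∑ b ∈ T, (if grp a ≠ grp b ∧ z a = z b then (1 : ℝ) else 0)) +
        ∑ a ∈ T, ∑ i ∈ U, (if (P i).eval (z a) = 0 then (1 : ℝ) else 0))) *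
          Fintype.card K := by
        gcongr with z' _
        exact h1 z'
    _ = (∑ a ∈ T, ∑ b ∈ T, (Fintype.card K : ℝ) * ∑ z : I → K,
      (if grp a ≠ grp b ∧ z a = z b then (1 : ℝ) else 0)) +
        ∑ a ∈ T, ∑ i ∈ U, (Fintype.card K : ℝ) * ∑ z : I → K,
          (if (P i).eval (z a) = 0 then (1 : ℝ) else 0) := by
        rw [sum_add_distrib, add_mul]
        congr 1
        · rw [mul_comm, sum_comm, mul_sum]
          refine sum_congr rfl fun a _ => ?_
          rw [sum_comm, mul_sum]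
        · rw [mul_comm, sum_comm, mul_sum]
          refine sum_congr rfl fun a _ => ?_
          rw [sum_comm, mul_sum]
    _ ≤ (∑ a ∈ T, ∑ b ∈ T, NQ I K) + ∑ a ∈ T, ∑ i ∈ U, E * NQ I K :=
        add_le_add (sum_le_sum fun a ha => sum_le_sum fun b hb => h2 a ha b hb)
          (sum_le_sum fun a ha => sum_le_sum fun i hi => h3 a ha i hi)
    _ = ((T.card : ℝ) ^ 2 + T.card * (U.card * E)) * NQ I K := by
        simp only [sum_const, nsmul_eq_mul]
        ring

end general

/-! ### slices -/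

section slices

variable {K : Type} [Field K] {d : ℕ}

/-- slice -/
def sl (L : Finset (Fin 3 × Fin d)) (Y : Fin 3) : Finset (Fin d) := univ.filter (fun i => (Y, i) ∈ L)

theorem mem_sl (L : Finset (Fin 3 × Fin d)) (Y : Fin 3) (i : Fin d) : i ∈ sl L Y ↔ (Y, i) ∈ L := by
  simp [sl]

theorem sl_card (L : Finset (Fin 3 × Fin d)) (Y : Fin 3) :
    (sl L Y).card = (L.filter (fun a => a.1 = Y)).card := by
  apply Finset.card_bij (fun i _ => (Y, i))
  · intro i hi
    rw [mem_sl] at hi
    simp [hi]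
  · intro i _ j _ h
    simpa using h
  · intro b hb
    simp only [mem_filter] at hb
    refine ⟨b.2, ?_, ?_⟩
    · rw [mem_sl, ← hb.2]; exact hb.1
    · rw [← hb.2]

theorem sl_prod (L T : Finset (Fin 3 × Fin d)) (hT : T ⊆ L) (z z' : Fin 3 × Fin d → K) (Y : Fin 3) :
    ∏ i ∈ sl L Y, (X - C (T.piecewise z z' (Y, i))) =
      MT (T.filter (fun a => a.1 = Y)) z * ∏ i ∈ sl (L \ T) Y, (X - C (z' (Y, i))) := by
  classical
  rw [← Finset.prod_filter_mul_prod_filter_not (sl L Y) (fun i : Fin d => (Y, i) ∈ T)]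
  congr 1
  · unfold MT
    apply Finset.prod_bij (fun i _ => (Y, i))
    · intro i hi
      simp only [mem_filter] at hi ⊢
      exact ⟨hi.2, trivial⟩
    · intro i _ j _ h
      simpa using h
    · intro b hb
      simp only [mem_filter] at hb
      refine ⟨b.2, ?_, ?_⟩
      · simp only [mem_filter]
        rw [mem_sl, ← hb.2]; exact ⟨hT hb.1, hb.1⟩
      · rw [← hb.2]
    · intro i hi
      simp only [mem_filter] at hi
      rw [Finset.piecewise_eq_of_mem _ _ _ hi.2]
  · apply Finset.prod_congr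
    · ext i
      simp [mem_sl]
    intro i hi
    rw [mem_sl, mem_sdiff] at hi
    rw [Finset.piecewise_eq_of_notMem _ _ _ hi.2]

theorem WM_piecewise (M : Fin 3 → K[X]) (L T : Finset (Fin 3 × Fin d)) (hT : T ⊆ L)
    (z z' : Fin 3 × Fin d → K) :
    WM M (sl L) (T.piecewise z z') =
      WM (fun Y => M Y * MT (T.filter (fun a => a.1 = Y)) z) (sl (L \ T)) z' := by
  unfold WM
  simp only [sl_prod L T hT z z', mul_assoc]

end slices

end Pool.Agent.Run7.h406.G
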